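import Pool.Agent.TGM.Defs

/-!
# Project TGK: randomised machines with random access to a graph, one unlimited tape and a main memory
-/

set_option autoImplicit false

open Finset Equiv MeasureTheory
open scoped Classical

namespace Pool.Agent.TGK

open Pool.Agent.TS (Query answer)
open Pool.Agent.TR (HasDegrees qans)
open Pool.Agent.RMS (Cf TM Cell Dir act mvo rmap)
open Pool.Agent.TGM (row rans)

/-! ## The machines -/

/-- A configuration: state, cell of the head, contents of the tape, contents of the main memory. -/
structure Conf (Q L Γ A X : Type) where
  v : Q
  p : L
  c : L → Γ
  r : A → X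

/-- A randomised, nonuniform machine with random access to a graph on `Fin n`, with one tape (cells `L`,
moves `D`, letters `Γ`) and a main memory (registers `A`, contents `X`), with states in `Q` and random seeds
in `Ω`. With seed `ω` it starts in the state `start ω` with the head on the cell `0`, the contents `init ω` of
the tape and the contents `mem ω` of the main memory. At time `t` in state `q` with the scanned letter `γ` it
accesses the register `addr ω t q γ` of the main memory, or none; let `x` be its content. It asks the
question `ask ω t q γ x` about the input graph (entry `k` of the adjacency list of `v`, or whether `u` and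
`v` are adjacent); `a` being the answer, `next ω t q γ x a` is the new state, the letter written into the
scanned cell, the move of the head, if any, and the content written into the accessed register (arbitrary
functions). `output q = some b`: in the state `q` the machine stops with the answer `b` (`true`: there is a
triangle). -/
structure Machine (n : ℕ) (Q Γ L D A X Ω : Type) where
  start : Ω → Q
  init : Ω → L → Γ
  mem : Ω → A → X
  addr : Ω → ℕ → Q → Γ → Option A
  ask : Ω → ℕ → Q → Γ → Option X → Query n
  next : Ω → ℕ → Q → Γ → Option X → Option (Fin n) → Q × Γ × Option D × X
  output : Q → Option Bool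

variable {n : ℕ} {Q Γ L D A X Ω : Type}

/-- the register accessed in the configuration `S` at time `t` -/
def Machine.reg (M : Machine n Q Γ L D A X Ω) (ω : Ω) (t : ℕ) (S : Conf Q L Γ A X) : Option A :=
  M.addr ω t S.v (S.c S.p)

/-- what the machine does in the configuration `S` at time `t` -/
noncomputable def Machine.move (M : Machine n Q Γ L D A X Ω) (ω : Ω) (G : SimpleGraph (Fin n)) (t : ℕ)
    (S : Conf Q L Γ A X) : Q × Γ × Option D × X :=
  M.next ω t S.v (S.c S.p) ((M.reg ω t S).map S.r)
    (answer G (M.ask ω t S.v (S.c S.p) ((M.reg ω t S).map S.r)))

/-- the next configuration (the move `δ` leads from the cell `p` to `ac δ p`) -/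
noncomputable def Machine.step (M : Machine n Q Γ L D A X Ω) (ac : D → L → L) (ω : Ω)
    (G : SimpleGraph (Fin n)) (t : ℕ) (S : Conf Q L Γ A X) : Conf Q L Γ A X :=
  ⟨(M.move ω G t S).1, mvo ac (M.move ω G t S).2.2.1 S.p,
    Function.update S.c S.p (M.move ω G t S).2.1,
    match M.reg ω t S with
    | none => S.r
    | some a => Function.update S.r a (M.move ω G t S).2.2.2⟩

/-- The configuration after `t` steps on the graph `G` with seed `ω`; a machine that has answered does not
change it any more. -/
noncomputable def Machine.run [Zero L] (M : Machine n Q Γ L D A X Ω) (ac : D → L → L) (ω : Ω)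
    (G : SimpleGraph (Fin n)) : ℕ → Conf Q L Γ A X
  | 0 => ⟨M.start ω, 0, M.init ω, M.mem ω⟩
  | t + 1 =>
    if (M.output (M.run ac ω G t).v).isSome then M.run ac ω G t else
      M.step ac ω G t (M.run ac ω G t)

/-- The answer given after `t` steps, if any. -/
noncomputable def Machine.out [Zero L] (M : Machine n Q Γ L D A X Ω) (ac : D → L → L) (ω : Ω)
    (G : SimpleGraph (Fin n)) (t : ℕ) : Option Bool := M.output (M.run ac ω G t).v

/-- The step at time `t` is made (no answer has been given) and accesses the main memory. -/
def Machine.Access [Zero L] (M : Machine n Q Γ L D A X Ω) (ac : D → L → L) (ω : Ω)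
    (G : SimpleGraph (Fin n)) (t : ℕ) : Prop :=
  M.out ac ω G t = none ∧ (M.reg ω t (M.run ac ω G t)).isSome

/-- On every graph with degree sequence `δ` the machine answers correctly whether there is a
triangle with probability at least `2 / 3`, the seed being distributed according to `μ`. (First three
clauses: the state and the position of the head after `t` steps are random variables, and that the step at
time `t` accesses the main memory is an event.) -/
def Machine.DetectsTriangles [Zero L] [MeasurableSpace Ω] (M : Machine n Q Γ L D A X Ω)
    (ac : D → L → L) (μ : Measure Ω) (δ : Fin n → ℕ) : Prop :=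
  ∀ G : SimpleGraph (Fin n), HasDegrees G δ →
    (∀ t q, MeasurableSet {ω | (M.run ac ω G t).v = q}) ∧
    (∀ t p, MeasurableSet {ω | (M.run ac ω G t).p = p}) ∧
    (∀ t, MeasurableSet {ω | M.Access ac ω G t}) ∧
    2 / 3 ≤ μ.real {ω | ∃ t b, M.out ac ω G t = some b ∧ (b = true ↔ ¬ G.CliqueFree 3)}

/-- The expected cost on every graph with degree sequence `δ` is at most `T`: a step costs `1`, and `φ`
more if it accesses the main memory. (The expected cost of the steps made before time `m` is the sum over
`t < m` of the probability that the machine has not yet answered at time `t`, plus `φ` times the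
probability that it accesses the main memory in the step at time `t`.) -/
def Machine.ExpectedCostLE [Zero L] [MeasurableSpace Ω] (M : Machine n Q Γ L D A X Ω)
    (ac : D → L → L) (μ : Measure Ω) (δ : Fin n → ℕ) (φ T : ℝ) : Prop :=
  ∀ G : SimpleGraph (Fin n), HasDegrees G δ → ∀ m : ℕ,
    ∑ t ∈ Finset.range m, (μ.real {ω | M.out ac ω G t = none} +
      φ * μ.real {ω | M.Access ac ω G t}) ≤ T

/-- the number of the changes of the room (room map `e`) in the first `N` steps -/
noncomputable def Machine.chs {I O : Type} [Zero L] (M : Machine n Q Γ L D A X Ω) (ac : D → L → L)
    (e : L ≃ I × O) (ω : Ω) (G : SimpleGraph (Fin n)) (N : ℕ) : ℕ :=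
  ((range N).filter fun t => (e (M.run ac ω G (t + 1)).p).1 ≠ (e (M.run ac ω G t).p).1).card

/-- the number of the accesses to the main memory in the first `N` steps -/
noncomputable def Machine.acs [Zero L] (M : Machine n Q Γ L D A X Ω) (ac : D → L → L)
    (ω : Ω) (G : SimpleGraph (Fin n)) (N : ℕ) : ℕ :=
  ((range N).filter fun t => M.Access ac ω G t).card

/-- the access to the main memory in the step at time `t`: register, old content, new content -/
noncomputable def Machine.ev [Zero L] (M : Machine n Q Γ L D A X Ω) (ac : D → L → L) (ω : Ω)
    (G : SimpleGraph (Fin n)) (t : ℕ) : Option (A × X × X) :=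
  if (M.out ac ω G t).isSome then none else
    (M.reg ω t (M.run ac ω G t)).map fun a =>
      (a, (M.run ac ω G t).r a, (M.move ω G t (M.run ac ω G t)).2.2.2)

/-! ## The machine of a seed without main memory, if the accesses are given -/

variable {K U : Type}

/-- The machine of a seed for families of permutations, if the accesses to the main memory are given by `ρ`
(register, old content, new content). It has only the tape. In the state `none` a check has failed: the
register and the new content must be those of `ρ`. -/
noncomputable def ktm [Fintype U] (M : Machine n Q Γ L D A X Ω) (ω : Ω)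
    (Gr : (K → Perm U) → SimpleGraph (Fin n)) (tq : Query n → Option (K × Bool × U))
    (ρ : ℕ → Option (A × X × X)) : TM (K × U × U) (Option Q) Γ L D where
  start := some (M.start ω)
  init := M.init ω
  rd t v a := match v with
    | none => ∅
    | some q => if (M.output q).isSome then ∅ else
      match tq (M.ask ω t q a ((ρ t).map fun z => z.2.1)) with
      | none => ∅
      | some k => row k
  op t v a x := match v with
    | none => (none, a, none)
    | some q => if (M.output q).isSome then (if (ρ t).isSome then none else some q, a, none) else
      if h : M.addr ω t q a = ((ρ t).map fun z => z.1) ∧ ∃ z : K → Perm U,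
          (tq (M.ask ω t q a ((ρ t).map fun z => z.2.1))).map (qans z) =
            (tq (M.ask ω t q a ((ρ t).map fun z => z.2.1))).bind (rans x) then
        let o := M.next ω t q a ((ρ t).map fun z => z.2.1)
          (answer (Gr h.2.choose) (M.ask ω t q a ((ρ t).map fun z => z.2.1)))
        if ∀ z ∈ ρ t, z.2.2 = o.2.2.2 then (some o.1, o.2.1, o.2.2.1) else (none, a, none)
      else (none, a, none)
  loc t v a x y h := by
    cases v with
    | none => rfl
    | some q =>
      by_cases ho : (M.output q).isSome
      · simp only [if_pos ho]
      · simp only [if_neg ho] at h ⊢
        cases hk : tq (M.ask ω t q a ((ρ t).map fun z => z.2.1)) with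
        | none => simp
        | some k =>
          rw [hk] at h
          have h1 : rans x k = rans y k := by
            unfold rans
            congr 1
            funext v
            exact h _ (Finset.mem_image.2 ⟨v, Finset.mem_univ _, rfl⟩)
          simp only [Option.bind_some, h1]

end Pool.Agent.TGK
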