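import Pool.Agent.TGK.St1

/-!
# Project TGK: the machine of a seed with given accesses and the randomised machine
-/

set_option autoImplicit false

open Finset Equiv MeasureTheory
open scoped Classical

namespace Pool.Agent.TGK

open Pool.Agent.TS (Query answer)
open Pool.Agent.TR (HasDegrees qans)
open Pool.Agent.RMS (Cf TM mvo)
open Pool.Agent.TGM (row rans xin pick QEnc)

namespace ENUAux

theorem rans_xin {K U : Type} (z : K → Perm U) (k : K × Bool × U) :
    rans (xin z) k = some (qans z k) := by
  have key : ∀ (g : U → Bool) (a : U), (∀ v, g v = true ↔ v = a) → pick g = some a := by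
    intro g a hg
    have hex : ∃ v, g v = true := ⟨a, (hg a).2 rfl⟩
    unfold pick
    rw [dif_pos hex, Option.some.injEq]
    exact (hg _).1 hex.choose_spec
  unfold rans
  refine key _ _ fun v => ?_
  by_cases hb : k.2.1 = true
  · simp only [hb, if_true, xin, qans, decide_eq_true_eq]
    exact eq_comm
  · simp only [hb, xin, qans, decide_eq_true_eq]
    rw [if_neg (by simp)]
    constructor
    · intro h
      rw [← h]
      simp
    · rintro rfl
      simp

theorem bind_rans {K U : Type} (z : K → Perm U) (o : Option (K × Bool × U)) :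
    o.bind (rans (xin z)) = o.map (qans z) := by
  cases o with
  | none => rfl
  | some k => simp [rans_xin]

variable {n : ℕ} {Q Γ L D A X Ω K U : Type}

/-- the effect of an event on the main memory -/
noncomputable def upd : Option (A × X × X) → (A → X) → A → X
  | none, r => r
  | some w, r => Function.update r w.1 w.2.2

theorem run_succ [Zero L] (M : Machine n Q Γ L D A X Ω) (ac : D → L → L) (ω : Ω)
    (G : SimpleGraph (Fin n)) (t : ℕ) : M.run ac ω G (t + 1) =
      if (M.output (M.run ac ω G t).v).isSome then M.run ac ω G t else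
        M.step ac ω G t (M.run ac ω G t) := rfl

theorem ev_eq [Zero L] (M : Machine n Q Γ L D A X Ω) (ac : D → L → L) (ω : Ω)
    (G : SimpleGraph (Fin n)) (t : ℕ) : M.ev ac ω G t =
      if (M.output (M.run ac ω G t).v).isSome then none else
        (M.reg ω t (M.run ac ω G t)).map fun a =>
          (a, (M.run ac ω G t).r a, (M.move ω G t (M.run ac ω G t)).2.2.2) := rfl

theorem run_succ_r [Zero L] (M : Machine n Q Γ L D A X Ω) (ac : D → L → L) (ω : Ω)
    (G : SimpleGraph (Fin n)) (t : ℕ) : (M.run ac ω G (t + 1)).r =
      upd (M.ev ac ω G t) (M.run ac ω G t).r := by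
  rw [run_succ, ev_eq]
  by_cases ho : (M.output (M.run ac ω G t).v).isSome
  · rw [if_pos ho, if_pos ho]
    rfl
  · rw [if_neg ho, if_neg ho]
    unfold Machine.step
    cases h : M.reg ω t (M.run ac ω G t) with
    | none => rfl
    | some a => rfl

/-- the main memory is determined by the events -/
theorem mem_eq [Zero L] (M : Machine n Q Γ L D A X Ω) (ac : D → L → L) (ω : Ω)
    (G G' : SimpleGraph (Fin n)) (T : ℕ) (h : ∀ t < T, M.ev ac ω G t = M.ev ac ω G' t) :
    (M.run ac ω G T).r = (M.run ac ω G' T).r := by
  induction T with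
  | zero => rfl
  | succ T ih =>
    rw [run_succ_r, run_succ_r, h T (Nat.lt_succ_self T),
      ih fun t ht => h t (Nat.lt_succ_of_lt ht)]

/-- the old content of an event -/
theorem ev_old [Zero L] (M : Machine n Q Γ L D A X Ω) (ac : D → L → L) (ω : Ω)
    (G : SimpleGraph (Fin n)) (t : ℕ) : ∀ w ∈ M.ev ac ω G t, w.2.1 = (M.run ac ω G t).r w.1 := by
  intro w hw
  rw [ev_eq] at hw
  by_cases ho : (M.output (M.run ac ω G t).v).isSome
  · rw [if_pos ho] at hw
    simp at hw
  · rw [if_neg ho, Option.mem_map] at hw
    obtain ⟨a, _, rfl⟩ := hw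
    rfl

variable [Fintype U]

/-- one operation -/
theorem op_eq (M : Machine n Q Γ L D A X Ω) (ω : Ω) (Gr : (K → Perm U) → SimpleGraph (Fin n))
    (tq : Query n → Option (K × Bool × U)) (hq : QEnc Gr tq) (ρ : ℕ → Option (A × X × X)) (t : ℕ)
    (z : K → Perm U) (S : Conf Q L Γ A X) (hold : ∀ w ∈ ρ t, w.2.1 = S.r w.1) :
    (ktm M ω Gr tq ρ : TM (K × U × U) (Option Q) Γ L D).op t (some S.v) (S.c S.p) (xin z) =
      if (M.output S.v).isSome then
        (if (ρ t).isSome then none else some S.v, S.c S.p, none) else
      if M.reg ω t S = (ρ t).map (fun w => w.1) then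
        if ∀ w ∈ ρ t, w.2.2 = (M.move ω (Gr z) t S).2.2.2 then
          (some (M.move ω (Gr z) t S).1, (M.move ω (Gr z) t S).2.1, (M.move ω (Gr z) t S).2.2.1)
        else (none, S.c S.p, none)
      else (none, S.c S.p, none) := by
  unfold ktm
  simp only []
  by_cases ho : (M.output S.v).isSome
  · rw [if_pos ho, if_pos ho]
  · rw [if_neg ho, if_neg ho]
    by_cases hr : M.reg ω t S = (ρ t).map (fun w => w.1)
    · have hm : (M.reg ω t S).map S.r = (ρ t).map (fun w => w.2.1) := by
        rw [hr, Option.map_map]
        cases h : ρ t with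
        | none => rfl
        | some w =>
          simp only [Option.map_some, Function.comp_apply]
          rw [hold w (by rw [h]; rfl)]
      have hh : M.addr ω t S.v (S.c S.p) = (ρ t).map (fun w => w.1) ∧ ∃ z' : K → Perm U,
          (tq (M.ask ω t S.v (S.c S.p) ((ρ t).map fun w => w.2.1))).map (qans z') =
            (tq (M.ask ω t S.v (S.c S.p) ((ρ t).map fun w => w.2.1))).bind (rans (xin z)) :=
        ⟨hr, z, (bind_rans z _).symm⟩
      rw [dif_pos hh, if_pos hr]
      have ha : answer (Gr hh.2.choose)
          (M.ask ω t S.v (S.c S.p) ((ρ t).map fun w => w.2.1)) = answer (Gr z)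
          (M.ask ω t S.v (S.c S.p) ((ρ t).map fun w => w.2.1)) :=
        hq _ _ _ (hh.2.choose_spec.trans (bind_rans z _))
      rw [ha]
      unfold Machine.move
      rw [hm]
    · rw [if_neg hr, dif_neg]
      intro h
      exact hr h.1

omit [Fintype U] in
theorem conf_succ [Zero L] (R : TM (K × U × U) (Option Q) Γ L D) (ac : D → L → L)
    (x : K × U × U → Bool) (t : ℕ) : R.conf ac x (t + 1) =
      ⟨(R.op t (R.conf ac x t).v ((R.conf ac x t).c (R.conf ac x t).p) x).1,
        mvo ac (R.op t (R.conf ac x t).v ((R.conf ac x t).c (R.conf ac x t).p) x).2.2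
          (R.conf ac x t).p,
        Function.update (R.conf ac x t).c (R.conf ac x t).p
          (R.op t (R.conf ac x t).v ((R.conf ac x t).c (R.conf ac x t).p) x).2.1⟩ := rfl

/-- the configurations are the real ones -/
theorem real [Zero L] (M : Machine n Q Γ L D A X Ω) (ac : D → L → L) (ω : Ω)
    (Gr : (K → Perm U) → SimpleGraph (Fin n)) (tq : Query n → Option (K × Bool × U))
    (hq : QEnc Gr tq) (z : K → Perm U) (ρ : ℕ → Option (A × X × X)) (t : ℕ)
    (h : ∀ s < t, ρ s = M.ev ac ω (Gr z) s) : (ktm M ω Gr tq ρ).conf ac (xin z) t =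
    ⟨some (M.run ac ω (Gr z) t).v, (M.run ac ω (Gr z) t).p, (M.run ac ω (Gr z) t).c⟩ := by
  induction t with
  | zero => rfl
  | succ t ih =>
    have h1 := h t (Nat.lt_succ_self t)
    rw [conf_succ, ih fun s hs => h s (Nat.lt_succ_of_lt hs)]
    dsimp only
    rw [op_eq M ω Gr tq hq ρ t z (M.run ac ω (Gr z) t)
      (by rw [h1]; exact ev_old M ac ω (Gr z) t), run_succ, h1, ev_eq]
    by_cases ho : (M.output (M.run ac ω (Gr z) t).v).isSome
    · rw [if_pos ho, if_pos ho, if_pos ho]
      simp [mvo]
    · rw [if_neg ho, if_neg ho, if_neg ho, if_pos, if_pos]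
      · rfl
      · intro w hw
        rw [Option.mem_map] at hw
        obtain ⟨a, _, rfl⟩ := hw
        rfl
      · rw [Option.map_map]
        cases M.reg ω t (M.run ac ω (Gr z) t) with
        | none => rfl
        | some a => rfl

end ENUAux

open ENUAux

theorem t_ENU : S_ENU := by
  intro n Q Γ L D A X Ω K U _ _ M ac ω Gr tq hq
  refine ⟨fun ρ t v a => ?_, fun z ρ T h t ht => ?_, fun z z' ρ T => ?_⟩
  · unfold ktm
    simp only []
    cases v with
    | none => exact Or.inl rfl
    | some q =>
      simp only []
      split_ifs with h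
      · exact Or.inl rfl
      · cases hk : tq (M.ask ω t q a ((ρ t).map fun z => z.2.1)) with
        | none => exact Or.inl rfl
        | some k => exact Or.inr ⟨k, rfl⟩
  · exact real M ac ω Gr tq hq z ρ t fun s hs => h s (lt_of_lt_of_le hs ht)
  · induction T with
    | zero =>
      intro _ _ t ht
      exact absurd ht (Nat.not_lt_zero t)
    | succ T ih =>
      intro h hv
      have hT : ((ktm M ω Gr tq ρ).conf ac (xin z) T).v ≠ none := by
        intro h0
        apply hv
        rw [conf_succ, h0]
        rfl
      have h1 : ∀ t < T, ρ t = M.ev ac ω (Gr z) t :=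
        ih (fun t ht => h t (Nat.lt_succ_of_lt ht)) hT
      have h2 := real M ac ω Gr tq hq z ρ T h1
      have hmem : (M.run ac ω (Gr z) T).r = (M.run ac ω (Gr z') T).r :=
        mem_eq M ac ω (Gr z) (Gr z') T fun t ht => by
          rw [← h1 t ht, ← h t (Nat.lt_succ_of_lt ht)]
      have hold : ∀ w ∈ ρ T, w.2.1 = (M.run ac ω (Gr z) T).r w.1 := by
        rw [hmem, h T (Nat.lt_succ_self T)]
        exact ev_old M ac ω (Gr z') T
      rw [conf_succ, h2] at hv
      dsimp only at hv
      rw [op_eq M ω Gr tq hq ρ T z (M.run ac ω (Gr z) T) hold] at hv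
      have hkey : ρ T = M.ev ac ω (Gr z) T := by
        rw [ev_eq]
        by_cases ho : (M.output (M.run ac ω (Gr z) T).v).isSome
        · rw [if_pos ho] at hv ⊢
          by_contra hne
          apply hv
          have h3 : (ρ T).isSome := Option.isSome_iff_ne_none.2 hne
          simp only [h3, if_true]
        · rw [if_neg ho] at hv ⊢
          by_cases hr : M.reg ω T (M.run ac ω (Gr z) T) = (ρ T).map (fun w => w.1)
          · rw [if_pos hr] at hv
            by_cases hw : ∀ w ∈ ρ T, w.2.2 =
                (M.move ω (Gr z) T (M.run ac ω (Gr z) T)).2.2.2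
            · rw [hr, Option.map_map]
              cases hc : ρ T with
              | none => rfl
              | some w =>
                have e1 := hold w (by rw [hc]; rfl)
                have e2 := hw w (by rw [hc]; rfl)
                simp only [Option.map_some, Function.comp_apply, Option.some.injEq]
                rw [← e1, ← e2]
            · rw [if_neg hw] at hv
              exact absurd rfl hv
          · rw [if_neg hr] at hv
            exact absurd rfl hv
      intro t ht
      rcases Nat.lt_succ_iff_lt_or_eq.1 ht with h3 | rfl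
      · exact h1 t h3
      · exact hkey

end Pool.Agent.TGK
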