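import Pool.Agent.TGK.St1
import Pool.Agent.TGM.PRT

/-!
# Project TGK, module PRU (helper11): the traces and the events, stopped
-/

set_option autoImplicit false

open Finset
open scoped Classical

namespace Pool.Agent.TGK

open Pool.Agent.RMS (TM Tra Vld rm)
open Pool.Agent.RMS.IDX (exists_map mk mk_succ mk_succ' rm_succ gr rm_mem fx mk_fx vld_fx)
open Pool.Agent.TGM.PRT (cut vld_cut tra_cut cg chg_le cg_succ cg_mono sup_cut)

namespace PRU

variable {P V Γ L D I O E : Type}

/-- the number of the events before time `T` -/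
def ce (f : ℕ → Option E) (T : ℕ) : ℕ := ((range T).filter fun t => (f t).isSome).card

lemma ce_zero (f : ℕ → Option E) : ce f 0 = 0 := rfl

lemma ce_mono (f : ℕ → Option E) : Monotone (ce f) := by
  intro a b h
  refine card_le_card (filter_subset_filter _ ?_)
  exact range_subset_range.2 h

lemma ce_succ_le (f : ℕ → Option E) (t : ℕ) : ce f (t + 1) ≤ ce f t + 1 := by
  unfold ce
  rw [range_add_one, filter_insert]
  split_ifs
  · exact card_insert_le _ _
  · exact Nat.le_succ _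

lemma ce_congr {f g : ℕ → Option E} {T : ℕ} (h : ∀ t < T, f t = g t) {t : ℕ} (ht : t ≤ T) :
    ce f t = ce g t := by
  unfold ce
  congr 1
  refine filter_congr fun u hu => ?_
  rw [h u (by have := mem_range.1 hu; omega)]

/-- the stopping time -/
noncomputable def hlt (a b : ℕ → ℕ) (N m F : ℕ) : ℕ :=
  Nat.find (⟨N, Or.inl rfl⟩ : ∃ T, T = N ∨ m < a T ∨ F < b T)

lemma hlt_spec (a b : ℕ → ℕ) (N m F : ℕ) :
    hlt a b N m F = N ∨ m < a (hlt a b N m F) ∨ F < b (hlt a b N m F) :=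
  Nat.find_spec (⟨N, Or.inl rfl⟩ : ∃ T, T = N ∨ m < a T ∨ F < b T)

lemma hlt_min (a b : ℕ → ℕ) {N m F t : ℕ} (h : t < hlt a b N m F) :
    ¬ (t = N ∨ m < a t ∨ F < b t) :=
  Nat.find_min (⟨N, Or.inl rfl⟩ : ∃ T, T = N ∨ m < a T ∨ F < b T) h

lemma hlt_le' (a b : ℕ → ℕ) {N m F t : ℕ} (h : t = N ∨ m < a t ∨ F < b t) :
    hlt a b N m F ≤ t :=
  Nat.find_min' (⟨N, Or.inl rfl⟩ : ∃ T, T = N ∨ m < a T ∨ F < b T) h

lemma hlt_le (a b : ℕ → ℕ) (N m F : ℕ) : hlt a b N m F ≤ N := hlt_le' a b (Or.inl rfl)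

lemma hlt_bd {a b : ℕ → ℕ} (a0 : a 0 = 0) (b0 : b 0 = 0) (ha : ∀ t, a (t + 1) ≤ a t + 1)
    (hb : ∀ t, b (t + 1) ≤ b t + 1) (N m F : ℕ) :
    a (hlt a b N m F) ≤ m + 1 ∧ b (hlt a b N m F) ≤ F + 1 := by
  rcases Nat.eq_zero_or_pos (hlt a b N m F) with h | h
  · rw [h, a0, b0]
    omega
  · obtain ⟨t, ht⟩ := Nat.exists_eq_succ_of_ne_zero h.ne'
    have h1 := hlt_min a b (N := N) (m := m) (F := F) (t := t) (by omega)
    have h2 := ha t
    have h3 := hb t
    rw [ht]
    simp only [Nat.succ_eq_add_one]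
    push Not at h1
    omega

lemma hlt_congr {a b a' b' : ℕ → ℕ} {N m F : ℕ}
    (h : ∀ t ≤ hlt a' b' N m F, a t = a' t ∧ b t = b' t) :
    hlt a b N m F = hlt a' b' N m F := by
  apply le_antisymm
  · apply hlt_le'
    rw [(h _ le_rfl).1, (h _ le_rfl).2]
    exact hlt_spec a' b' N m F
  · by_contra hlt1
    push Not at hlt1
    have h1 := hlt_min a' b' hlt1
    rw [← (h _ hlt1.le).1, ← (h _ hlt1.le).2] at h1
    exact h1 (hlt_spec a b N m F)

lemma hlt_good {a b : ℕ → ℕ} (ha : Monotone a) (hb : Monotone b) {N m F : ℕ}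
    (h : a N ≤ m ∧ b N ≤ F) : hlt a b N m F = N := by
  rcases hlt_spec a b N m F with h1 | h1 | h1
  · exact h1
  · have := ha (hlt_le a b N m F)
    omega
  · have := hb (hlt_le a b N m F)
    omega

lemma good_iff {a b : ℕ → ℕ} (ha : Monotone a) (hb : Monotone b) {N m F : ℕ} :
    (a N ≤ m ∧ b N ≤ F) ↔ (a (hlt a b N m F) ≤ m ∧ b (hlt a b N m F) ≤ F) := by
  constructor
  · intro h
    rw [hlt_good ha hb h]
    exact h
  · intro h
    rcases hlt_spec a b N m F with h1 | h1 | h1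
    · rw [h1] at h
      exact h
    · omega
    · omega

/-- the function on all numbers -/
def pr {N : ℕ} (g : Fin N → Option E) (t : ℕ) : Option E := if h : t < N then g ⟨t, h⟩ else none

/-- the events before time `T` -/
def cu (N : ℕ) (f : ℕ → Option E) (T : ℕ) (u : Fin N) : Option E := if u.1 < T then f u.1 else none

lemma pr_cu {N : ℕ} (f : ℕ → Option E) {T t : ℕ} (hT : T ≤ N) (h : t < T) :
    pr (cu N f T) t = f t := by
  unfold pr cu
  rw [dif_pos (by omega), if_pos h]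

lemma sup_cu {N : ℕ} (f : ℕ → Option E) {T : ℕ} (hT : T ≤ N) :
    ((univ : Finset (Fin N)).filter fun u => cu N f T u ≠ none).card = ce f T := by
  unfold ce
  refine Finset.card_bij (fun u _ => u.1) ?_ ?_ ?_
  · intro u hu
    have h1 := (mem_filter.1 hu).2
    unfold cu at h1
    split_ifs at h1 with h2
    · exact mem_filter.2 ⟨mem_range.2 h2, Option.isSome_iff_ne_none.2 h1⟩
    · exact absurd rfl h1
  · intro u _ u' _ h
    exact Fin.ext h
  · intro t ht
    have h1 := mem_range.1 (mem_filter.1 ht).1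
    refine ⟨⟨t, by omega⟩, mem_filter.2 ⟨mem_univ _, ?_⟩, rfl⟩
    unfold cu
    rw [if_pos h1]
    exact Option.isSome_iff_ne_none.1 (mem_filter.1 ht).2

/-- few values: a code -/
lemma code {α : Type} [Fintype α] {N m : ℕ} (f : Fin N → Option α)
    (h : ((univ : Finset (Fin N)).filter fun u => f u ≠ none).card ≤ m) :
    ∃ φ : Fin m → Option (Fin N × α), ∀ t q, f t = some q ↔ ∃ j, φ j = some (t, q) := by
  have h2 : ((univ : Finset (Fin N × α)).filter fun z => f z.1 = some z.2).card ≤ m := by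
    refine le_trans ?_ h
    refine Finset.card_le_card_of_injOn (fun z => z.1) ?_ ?_
    · intro z hz
      have hz' := (mem_filter.1 hz).2
      refine mem_filter.2 ⟨mem_univ _, ?_⟩
      show f z.1 ≠ none
      rw [hz']
      simp
    · intro z hz z' hz' h
      have h3 := (mem_filter.1 hz).2
      have h4 := (mem_filter.1 hz').2
      have h5 : z.1 = z'.1 := h
      rw [h5, h4] at h3
      exact Prod.ext h5 (Option.some_injective _ h3).symm
  obtain ⟨φ, hφ⟩ := exists_map _ h2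
  refine ⟨φ, fun t q => ?_⟩
  rw [← hφ (t, q), mem_filter]
  simp

lemma tra_conf [Zero L] {R R' : TM P V Γ L D} {ac : D → L → L} {e : L ≃ I × O} {x : P → Bool}
    {T : ℕ} (h : ∀ t ≤ T, R.conf ac x t = R'.conf ac x t) (τ : ℕ → Option (V × L)) :
    Tra R ac e τ x T ↔ Tra R' ac e τ x T := by
  constructor
  · intro h1 u hu
    have := h1 u hu
    rw [h u hu.le, h (u + 1) hu] at this
    exact this
  · intro h1 u hu
    have := h1 u hu
    rw [← h u hu.le, ← h (u + 1) hu] at this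
    exact this

lemma chg_tra [Zero L] {R R' : TM P V Γ L D} {ac : D → L → L} {e : L ≃ I × O} {x x' : P → Bool}
    {T : ℕ} {τ : ℕ → Option (V × L)} (h : Tra R ac e τ x T) (h' : Tra R' ac e τ x' T) {t : ℕ}
    (ht : t < T) : R.chg ac e x t = R'.chg ac e x' t := by
  have h1 := h t ht
  have h2 := h' t ht
  unfold TM.chg
  by_cases h3 : (e (R.conf ac x (t + 1)).p).1 = (e (R.conf ac x t).p).1
  · rw [if_pos h3] at h1 ⊢
    rw [h1] at h2
    by_cases h4 : (e (R'.conf ac x' (t + 1)).p).1 = (e (R'.conf ac x' t).p).1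
    · rw [if_pos h4]
    · rw [if_neg h4] at h2
      exact absurd h2 (by simp)
  · rw [if_neg h3] at h1 ⊢
    rw [h1] at h2
    by_cases h4 : (e (R'.conf ac x' (t + 1)).p).1 = (e (R'.conf ac x' t).p).1
    · rw [if_pos h4] at h2
      exact absurd h2 (by simp)
    · rw [if_neg h4]

lemma cg_tra [Zero L] {R R' : TM P V Γ L D} {ac : D → L → L} {e : L ≃ I × O} {x x' : P → Bool}
    {T : ℕ} {τ : ℕ → Option (V × L)} (h : Tra R ac e τ x T) (h' : Tra R' ac e τ x' T) {t : ℕ}
    (ht : t ≤ T) : cg R ac e x t = cg R' ac e x' t := by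
  unfold cg
  refine sum_congr rfl fun u hu => chg_tra h h' ?_
  have := mem_range.1 hu
  omega

end PRU

open PRU in
theorem t_PRU : S_PRU := by
  intro P V Γ L D I O E ζ _ _ _ R ac e inp ev N m F B hF hB
  obtain ⟨hF1, hF2⟩ := hF
  -- the stopping time
  let c1 : ζ → ℕ → ℕ := fun z => cg (R (ev z)) ac e (inp z)
  let c2 : ζ → ℕ → ℕ := fun z => ce (ev z)
  let T : ζ → ℕ := fun z => hlt (c1 z) (c2 z) N m F
  have hTN : ∀ z, T z ≤ N := fun z => hlt_le _ _ _ _ _
  have hbd : ∀ z, c1 z (T z) ≤ m + 1 ∧ c2 z (T z) ≤ F + 1 := by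
    intro z
    refine hlt_bd (by simp [c1, cg]) (ce_zero _) ?_ (ce_succ_le _) N m F
    intro t
    have h1 := cg_succ (R (ev z)) ac e (inp z) t
    have h2 := chg_le (R (ev z)) ac e (inp z) t
    show cg (R (ev z)) ac e (inp z) (t + 1) ≤ cg (R (ev z)) ac e (inp z) t + 1
    omega
  have hm1 : ∀ z, Monotone (c1 z) := fun z => cg_mono _ _ _ _
  have hm2 : ∀ z, Monotone (c2 z) := fun z => ce_mono _
  have hwx : ∀ z, ∃ w : V, ((R (ev z)).conf ac (inp z) (T z)).v = some w := by
    intro z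
    exact Option.ne_none_iff_exists'.1 ((hF1 z (ev z) (T z) (fun _ _ => rfl) (T z) le_rfl).2)
  choose w hw using hwx
  let α : Type := Fin (N + 1) × (Fin N → Option (Option V × B)) × (Fin N → Option E) × V
  let dat : ζ → α := fun z => (⟨T z, Nat.lt_succ_of_le (hTN z)⟩,
    cut (fx (R (ev z)) ac e (inp z) (hB z)) (T z), cu N (ev z) (T z), w z)
  let ι : Type := {a : α // ∃ z, dat z = a}
  -- fitting
  have fit : ∀ z, Tra (R (pr (dat z).2.2.1)) ac e (mk (dat z).2.1) (inp z) (dat z).1.1 ∧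
      ((R (pr (dat z).2.2.1)).conf ac (inp z) (dat z).1.1).v = some (dat z).2.2.2 := by
    intro z
    have h1 := hF1 z (pr (cu N (ev z) (T z))) (T z) (fun t ht => pr_cu (ev z) (hTN z) ht)
    constructor
    · show Tra (R (pr (cu N (ev z) (T z)))) ac e
        (mk (cut (fx (R (ev z)) ac e (inp z) (hB z)) (T z))) (inp z) (T z)
      rw [tra_conf (fun t ht => (h1 t ht).1)]
      refine (tra_cut (R (ev z)) ac e (inp z) (hB z) _ (hTN z) ?_).2 rfl
      intro u hu
      unfold TGM.PRT.cut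
      rw [if_neg (by omega)]
    · show ((R (pr (cu N (ev z) (T z)))).conf ac (inp z) (T z)).v = some (w z)
      rw [(h1 _ le_rfl).1, hw]
  have fitu : ∀ z z', Tra (R (pr (dat z').2.2.1)) ac e (mk (dat z').2.1) (inp z) (dat z').1.1 →
      ((R (pr (dat z').2.2.1)).conf ac (inp z) (dat z').1.1).v = some (dat z').2.2.2 →
      dat z = dat z' ∧ ((c1 z N ≤ m ∧ c2 z N ≤ F) ↔ (c1 z' N ≤ m ∧ c2 z' N ≤ F)) := by
    intro z z' hT hv
    change Tra (R (pr (cu N (ev z') (T z')))) ac e
        (mk (cut (fx (R (ev z')) ac e (inp z') (hB z')) (T z'))) (inp z) (T z') at hT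
    change ((R (pr (cu N (ev z') (T z')))).conf ac (inp z) (T z')).v = some (w z') at hv
    have e1 : ∀ t < T z', pr (cu N (ev z') (T z')) t = ev z' t :=
      fun t ht => pr_cu (ev z') (hTN z') ht
    have e2 := hF2 z z' _ (T z') e1 (by rw [hv]; simp)
    have e3 : ∀ t < T z', ev z t = ev z' t := fun t ht => (e2 t ht).symm.trans (e1 t ht)
    have h1 := hF1 z _ (T z') e2
    rw [tra_conf (fun t ht => (h1 t ht).1)] at hT
    have hT' : Tra (R (ev z')) ac e
        (mk (cut (fx (R (ev z')) ac e (inp z') (hB z')) (T z'))) (inp z') (T z') := by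
      refine (tra_cut (R (ev z')) ac e (inp z') (hB z') _ (hTN z') ?_).2 rfl
      intro u hu
      unfold TGM.PRT.cut
      rw [if_neg (by omega)]
    have hc : ∀ t ≤ T z', c1 z t = c1 z' t ∧ c2 z t = c2 z' t :=
      fun t ht => ⟨cg_tra hT hT' ht, ce_congr e3 ht⟩
    have hTT : T z = T z' := hlt_congr hc
    constructor
    · refine Prod.ext (Fin.ext hTT) (Prod.ext ?_ (Prod.ext ?_ ?_))
      · show cut (fx (R (ev z)) ac e (inp z) (hB z)) (T z) =
          cut (fx (R (ev z')) ac e (inp z') (hB z')) (T z')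
        rw [hTT]
        refine ((tra_cut (R (ev z)) ac e (inp z) (hB z) _ (hTN z') ?_).1 hT).symm
        intro u hu
        unfold TGM.PRT.cut
        rw [if_neg (by omega)]
      · show cu N (ev z) (T z) = cu N (ev z') (T z')
        rw [hTT]
        funext u
        unfold cu
        split_ifs with h
        · exact e3 _ h
        · rfl
      · show w z = w z'
        have h2 := hw z
        rw [hTT, ← (h1 _ le_rfl).1, hv] at h2
        exact (Option.some_injective _ h2).symm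
    · rw [good_iff (hm1 z) (hm2 z), good_iff (hm1 z') (hm2 z')]
      show (c1 z (T z) ≤ m ∧ c2 z (T z) ≤ F) ↔ (c1 z' (T z') ≤ m ∧ c2 z' (T z') ≤ F)
      rw [hTT, (hc _ le_rfl).1, (hc _ le_rfl).2]
  have hs1 : ∀ i : ι, (RMS.IDX.sup i.1.2.1).card ≤ m + 1 := by
    rintro ⟨i, z, rfl⟩
    show (RMS.IDX.sup (cut (fx (R (ev z)) ac e (inp z) (hB z)) (T z))).card ≤ m + 1
    rw [sup_cut (R (ev z)) ac e (inp z) (hB z) (hTN z)]
    exact (hbd z).1
  have hs2 : ∀ i : ι, ((univ : Finset (Fin N)).filter fun u => i.1.2.2.1 u ≠ none).card ≤ F + 1 := by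
    rintro ⟨i, z, rfl⟩
    show ((univ : Finset (Fin N)).filter fun u => cu N (ev z) (T z) u ≠ none).card ≤ F + 1
    rw [sup_cu (ev z) (hTN z)]
    exact (hbd z).2
  have hcard : Fintype.card ι ≤ (N + 1) * ((N + 1) * (Fintype.card V + 1) * B.card + 1) ^ (m + 1) *
      ((N + 1) * Fintype.card E + 1) ^ (F + 1) * Fintype.card V := by
    have h1 : ∀ i : ι, ∃ φ : Fin (m + 1) → Option (Fin N × Option V × B), ∀ t q,
        i.1.2.1 t = some q ↔ ∃ j, φ j = some (t, q) := fun i => code _ (hs1 i)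
    have h2 : ∀ i : ι, ∃ φ : Fin (F + 1) → Option (Fin N × E), ∀ t q,
        i.1.2.2.1 t = some q ↔ ∃ j, φ j = some (t, q) := fun i => code _ (hs2 i)
    choose φ hφ using h1
    choose ψ hψ using h2
    let χ : ι → Fin (N + 1) × (Fin (m + 1) → Option (Fin N × Option V × B)) ×
        (Fin (F + 1) → Option (Fin N × E)) × V :=
      fun i => (i.1.1, φ i, ψ i, i.1.2.2.2)
    have hinj : Function.Injective χ := by
      intro i i' h
      have ha : (χ i).1 = (χ i').1 := by rw [h]
      have hb : (χ i).2.1 = (χ i').2.1 := by rw [h]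
      have hc : (χ i).2.2.1 = (χ i').2.2.1 := by rw [h]
      have hd : (χ i).2.2.2 = (χ i').2.2.2 := by rw [h]
      refine Subtype.ext (Prod.ext ha (Prod.ext (funext fun t => ?_)
        (Prod.ext (funext fun t => ?_) hd)))
      · refine Option.ext fun q => ?_
        rw [hφ i t q, hφ i' t q, show φ i = φ i' from hb]
      · refine Option.ext fun q => ?_
        rw [hψ i t q, hψ i' t q, show ψ i = ψ i' from hc]
    refine (Fintype.card_le_of_injective χ hinj).trans ?_
    simp only [Fintype.card_fun, Fintype.card_option, Fintype.card_prod, Fintype.card_fin,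
      Fintype.card_coe]
    rw [mul_assoc (N + 1), mul_assoc (N + 1), mul_assoc]
    refine Nat.mul_le_mul_left _ (Nat.mul_le_mul (Nat.pow_le_pow_left ?_ _)
      (Nat.mul_le_mul_right _ (Nat.pow_le_pow_left ?_ _)))
    · rw [← mul_assoc]
      gcongr
      omega
    · gcongr
      omega
  refine ⟨ι, inferInstance, fun i => i.1.1.1, fun i => mk i.1.2.1, fun i => pr i.1.2.2.1,
    fun i => i.1.2.2.2, fun i => ∃ z, dat z = i.1 ∧ c1 z N ≤ m ∧ c2 z N ≤ F, hcard, ?_, ?_⟩
  · intro i
    refine ⟨Nat.lt_succ_iff.1 i.1.1.2, ?_, ?_⟩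
    · obtain ⟨i, z, rfl⟩ := i
      exact vld_cut e _ _ (vld_fx (R (ev z)) ac e (inp z) (hB z))
    · refine (Finset.card_le_card (t := insert (e 0).1 ((RMS.IDX.sup i.1.2.1).image
        (gr e i.1.2.1))) ?_).trans ?_
      · intro a ha
        obtain ⟨t, -, rfl⟩ := mem_image.1 ha
        exact rm_mem e i.1.2.1 t
      · refine (card_insert_le _ _).trans ?_
        exact Nat.succ_le_succ (card_image_le.trans (hs1 i))
  · intro z
    refine ⟨⟨⟨dat z, z, rfl⟩, fit z, ?_⟩, ?_⟩
    · rintro ⟨i, z', rfl⟩ ⟨hi1, hi2⟩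
      exact Subtype.ext (fitu z z' hi1 hi2).1.symm
    · rintro ⟨i, z', rfl⟩ ⟨hi1, hi2⟩
      have h1 := fitu z z' hi1 hi2
      have h2 : (∃ z'', dat z'' = dat z' ∧ c1 z'' N ≤ m ∧ c2 z'' N ≤ F) ↔
          (c1 z N ≤ m ∧ c2 z N ≤ F) := by
        constructor
        · rintro ⟨z'', h3, h4⟩
          refine (fitu z z'' ?_ ?_).2.2 h4
          · rw [h3]
            exact hi1
          · rw [h3]
            exact hi2
        · intro h3
          exact ⟨z, h1.1, h3⟩
      refine ⟨h2, fun h3 => ?_⟩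
      have h4 : T z = N := hlt_good (hm1 z) (hm2 z) (h2.1 h3)
      have h5 := hw z
      rw [h4] at h5
      rw [h5]
      show some (w z) = some (w z')
      have h6 : (dat z).2.2.2 = (dat z').2.2.2 := by rw [h1.1]
      exact congrArg some h6

end Pool.Agent.TGK
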