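import Pool.Agent.TGK.St1

/-!
# Project TGK, module RNU: probabilities
-/

set_option autoImplicit false

open Finset Equiv MeasureTheory
open scoped Classical

namespace Pool.Agent.TGK

open Pool.Agent.TS (Query answer)
open Pool.Agent.TR (HasDegrees qans)
open Pool.Agent.HR (DS)
open Pool.Agent.PPS (SS Op)
open Pool.Agent.RMS (Cf TM Cell Dir act mvo rmap box Tra Vld rm S_SHF S_AVD)

namespace RNUx

section Runs

variable {n d : ℕ} {Q Γ A X Ω : Type} (M : Machine n Q Γ (Cell d) (Dir d) A X Ω)

theorem run_stable (ω : Ω) (G : SimpleGraph (Fin n)) (t t' : ℕ) (h : t ≤ t')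
    (hs : (M.out act ω G t).isSome) : M.run act ω G t' = M.run act ω G t := by
  induction t', h using Nat.le_induction with
  | base => rfl
  | succ t' _ ih =>
    have hs' : (M.output (M.run act ω G t).v).isSome := hs
    show (if (M.output (M.run act ω G t').v).isSome then M.run act ω G t' else _) = _
    rw [ih, if_pos hs']

theorem out_none (ω : Ω) (G : SimpleGraph (Fin n)) (t t' : ℕ) (h : t ≤ t')
    (hs : M.out act ω G t' = none) : M.out act ω G t = none := by
  by_contra hcon
  have h1 : (M.out act ω G t).isSome := Option.ne_none_iff_isSome.1 hcon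
  unfold Machine.out at hs hcon
  rw [run_stable M ω G t t' h h1] at hs
  exact hcon hs

theorem out_some (ω : Ω) (G : SimpleGraph (Fin n)) (t t' : ℕ) (b b' : Bool)
    (hs : M.out act ω G t = some b) (hs' : M.out act ω G t' = some b') : b = b' := by
  rcases le_total t t' with h | h
  · have := run_stable M ω G t t' h (by rw [hs]; rfl)
    unfold Machine.out at hs hs'
    rw [this, hs] at hs'
    exact Option.some.inj hs'
  · have := run_stable M ω G t' t h (by rw [hs']; rfl)
    unfold Machine.out at hs hs'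
    rw [this, hs'] at hs
    exact (Option.some.inj hs).symm

theorem step (ω : Ω) (G : SimpleGraph (Fin n)) (t : ℕ) :
    (M.run act ω G (t + 1)).p = (M.run act ω G t).p ∨
      ∃ δ : Dir d, (M.run act ω G (t + 1)).p = act δ (M.run act ω G t).p := by
  by_cases h : (M.output (M.run act ω G t).v).isSome
  · left
    rw [Machine.run, if_pos h]
  · rw [Machine.run, if_neg h]
    have hp : (M.step act ω G t (M.run act ω G t)).p =
        mvo act (M.move ω G t (M.run act ω G t)).2.2.1 (M.run act ω G t).p := rfl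
    rw [hp]
    rcases (M.move ω G t (M.run act ω G t)).2.2.1 with _ | δ
    · left
      rfl
    · right
      exact ⟨δ, rfl⟩

theorem one (hS : S_SHF) (ω : Ω) (G : SimpleGraph (Fin n)) (t Z : ℕ) (hZ : 0 < Z) :
    ((range Z).filter fun o => (rmap d Z hZ o (M.run act ω G (t + 1)).p).1 ≠
      (rmap d Z hZ o (M.run act ω G t).p).1).card ≤ 1 := by
  rcases step M ω G t with h | ⟨δ, h⟩
  · rw [h]
    simp
  · rw [h]
    exact (hS d).1 Z hZ δ _

theorem chs_eq (ω : Ω) (G : SimpleGraph (Fin n)) {I O : Type} (e : Cell d ≃ I × O) (N : ℕ) :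
    M.chs act e ω G N = ∑ t ∈ range N,
      if (e (M.run act ω G (t + 1)).p).1 ≠ (e (M.run act ω G t).p).1 then 1 else 0 :=
  Finset.card_filter _ _

/-- the sum over the shifts of the number of the changes -/
theorem sum_chs (hS : S_SHF) (ω : Ω) (G : SimpleGraph (Fin n)) (N Z : ℕ) (hZ : 0 < Z) :
    ∑ o ∈ range Z, M.chs act (rmap d Z hZ o) ω G N ≤ N := by
  rw [Finset.sum_congr rfl fun o _ => chs_eq M ω G (rmap d Z hZ o) N, Finset.sum_comm]
  calc _ ≤ ∑ _t ∈ range N, 1 := Finset.sum_le_sum fun t _ => ?_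
    _ = N := by simp
  refine le_trans (le_of_eq ?_) (one M hS ω G t Z hZ)
  rw [Finset.card_filter]
  refine Finset.sum_congr rfl fun o _ => ?_
  split_ifs <;> rfl

theorem few (hS : S_SHF) (ω : Ω) (G : SimpleGraph (Fin n)) (N m Z : ℕ) (hZ : 0 < Z)
    (h : 20 * N ≤ (m + 1) * Z) :
    20 * ((range Z).filter fun o => ¬ M.chs act (rmap d Z hZ o) ω G N ≤ m).card ≤ Z := by
  have h1 : ((range Z).filter fun o => ¬ M.chs act (rmap d Z hZ o) ω G N ≤ m).card * (m + 1) ≤
      N := by
    refine le_trans ?_ (sum_chs M hS ω G N Z hZ)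
    rw [← smul_eq_mul, ← Finset.sum_const]
    refine (Finset.sum_le_sum fun o ho => ?_).trans
      (Finset.sum_le_sum_of_subset (Finset.filter_subset _ _))
    have := (Finset.mem_filter.1 ho).2
    omega
  have h2 : 20 * ((range Z).filter fun o => ¬ M.chs act (rmap d Z hZ o) ω G N ≤ m).card *
      (m + 1) ≤ Z * (m + 1) := by nlinarith
  exact Nat.le_of_mul_le_mul_right h2 (Nat.succ_pos m)

end Runs

section Prob

set_option linter.unusedSectionVars false

variable {n d : ℕ} {Q Γ A X Ω : Type} (M : Machine n Q Γ (Cell d) (Dir d) A X Ω)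
  [Fintype Q] [MeasurableSpace Ω] (μ : Measure Ω) [IsProbabilityMeasure μ]

theorem meas_out (G : SimpleGraph (Fin n)) (hm : ∀ t q, MeasurableSet {ω | (M.run act ω G t).v = q})
    (t : ℕ) (o : Option Bool) : MeasurableSet {ω | M.out act ω G t = o} := by
  have : {ω | M.out act ω G t = o} =
      ⋃ x ∈ (Finset.univ.filter fun x : Q => M.output x = o), {ω | (M.run act ω G t).v = x} := by
    ext ω
    simp [Machine.out]
  rw [this]
  exact Finset.measurableSet_biUnion _ fun x _ => hm t x

theorem meas_pair {α β : Type} [Countable α] [Countable β] (x : Ω → α) (y : Ω → β)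
    (hx : ∀ a, MeasurableSet {ω | x ω = a}) (hy : ∀ b, MeasurableSet {ω | y ω = b})
    (P : α → β → Prop) : MeasurableSet {ω | P (x ω) (y ω)} := by
  have e : {ω | P (x ω) (y ω)} =
      ⋃ c ∈ {c : α × β | P c.1 c.2}, ({ω | x ω = c.1} ∩ {ω | y ω = c.2}) := by
    ext ω
    simp
  rw [e]
  exact MeasurableSet.biUnion (Set.to_countable _) (fun c _ => (hx c.1).inter (hy c.2))

theorem meas_chs (G : SimpleGraph (Fin n)) {I O : Type} (e : Cell d ≃ I × O)
    (hp : ∀ t p, MeasurableSet {ω | (M.run act ω G t).p = p}) (N m : ℕ) :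
    MeasurableSet {ω | M.chs act e ω G N ≤ m} := by
  have h1 : ∀ t, MeasurableSet {ω | (e (M.run act ω G (t + 1)).p).1 ≠ (e (M.run act ω G t).p).1} :=
    fun t => meas_pair (fun ω => (M.run act ω G (t + 1)).p) (fun ω => (M.run act ω G t).p)
      (hp (t + 1)) (hp t) (fun a b => (e a).1 ≠ (e b).1)
  have h2 : ∀ ω, M.chs act e ω G N = ∑ t ∈ range N,
      if (e (M.run act ω G (t + 1)).p).1 ≠ (e (M.run act ω G t).p).1 then 1 else 0 :=
    fun ω => chs_eq M ω G e N
  have h3 : Measurable (fun ω => M.chs act e ω G N) := by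
    rw [show (fun ω => M.chs act e ω G N) = fun ω => ∑ t ∈ range N,
      if (e (M.run act ω G (t + 1)).p).1 ≠ (e (M.run act ω G t).p).1 then 1 else 0 from
      funext h2]
    refine Finset.measurable_fun_sum _ fun t _ => ?_
    exact Measurable.ite (h1 t) measurable_const measurable_const
  exact measurableSet_le h3 measurable_const

theorem prob_none (G : SimpleGraph (Fin n)) (T : ℝ) (N : ℕ) (hN : 0 < N) (hT : 20 * T ≤ N)
    (h : ∀ k : ℕ, ∑ t ∈ range k, μ.real {ω | M.out act ω G t = none} ≤ T) :
    μ.real {ω | M.out act ω G N = none} ≤ 1 / 20 := by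
  have h1 : (N : ℝ) * μ.real {ω | M.out act ω G N = none} ≤ T := by
    refine le_trans ?_ (h N)
    rw [← nsmul_eq_mul]
    conv_lhs => rw [← Finset.card_range N, ← Finset.sum_const, Finset.card_range]
    refine Finset.sum_le_sum fun t ht => ?_
    apply measureReal_mono
    · intro ω hω
      exact out_none M ω G t N (Finset.mem_range.1 ht).le hω
    · exact measure_ne_top _ _
  have hN0 : (0 : ℝ) < N := by exact_mod_cast hN
  nlinarith

theorem prob_free (G : SimpleGraph (Fin n)) (hG : G.CliqueFree 3)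
    (hd : 2 / 3 ≤ μ.real {ω | ∃ t b, M.out act ω G t = some b ∧ (b = true ↔ ¬ G.CliqueFree 3)})
    (m : ℕ) (h2 : μ.real {ω | M.out act ω G m = none} ≤ 1 / 20) :
    37 / 60 ≤ μ.real {ω | M.out act ω G m = some false} := by
  have h3 : μ.real {ω | ∃ t b, M.out act ω G t = some b ∧ (b = true ↔ ¬ G.CliqueFree 3)} ≤
      μ.real ({ω | M.out act ω G m = some false} ∪ {ω | M.out act ω G m = none}) := by
    apply measureReal_mono
    · rintro ω ⟨t, b, hb, hb'⟩
      have hbf : b = false := by
        cases b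
        · rfl
        · exact absurd hG (hb'.1 rfl)
      subst hbf
      rcases ho : M.out act ω G m with _ | b'
      · exact Or.inr ho
      · left
        have := out_some M ω G t m false b' hb ho
        rw [← this] at ho
        exact ho
    · exact measure_ne_top _ _
  have h4 := measureReal_union_le (μ := μ) {ω | M.out act ω G m = some false}
        {ω | M.out act ω G m = none}
  linarith

theorem prob_tri (G : SimpleGraph (Fin n)) (hG : ¬ G.CliqueFree 3)
    (hm : ∀ t q, MeasurableSet {ω | (M.run act ω G t).v = q})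
    (hd : 2 / 3 ≤ μ.real {ω | ∃ t b, M.out act ω G t = some b ∧ (b = true ↔ ¬ G.CliqueFree 3)})
    (m : ℕ) : μ.real {ω | M.out act ω G m = some false} ≤ 1 / 3 := by
  have h1 : μ.real {ω | ∃ t b, M.out act ω G t = some b ∧ (b = true ↔ ¬ G.CliqueFree 3)} ≤
      μ.real ({ω | M.out act ω G m = some false}ᶜ) := by
    apply measureReal_mono
    · rintro ω ⟨t, b, hb, hb'⟩ hω
      have hbt : b = true := hb'.2 hG
      subst hbt
      have := out_some M ω G t m true false hb hω
      exact absurd this (by decide)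
    · exact measure_ne_top _ _
  rw [measureReal_compl (meas_out M G hm m (some false)), probReal_univ] at h1
  linarith

/-- the average over the shifts of the probability of more than `m` changes -/
theorem sum_bad (hS : S_SHF) (G : SimpleGraph (Fin n)) (N m Z : ℕ) (hZ : 0 < Z)
    (h : 20 * N ≤ (m + 1) * Z)
    (hp : ∀ t p, MeasurableSet {ω | (M.run act ω G t).p = p}) :
    ∑ o ∈ range Z, μ.real {ω | ¬ M.chs act (rmap d Z hZ o) ω G N ≤ m} ≤ (Z : ℝ) / 20 := by
  have hA : ∀ o, MeasurableSet {ω | ¬ M.chs act (rmap d Z hZ o) ω G N ≤ m} :=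
    fun o => (meas_chs M G (rmap d Z hZ o) hp N m).compl
  have hint : ∀ o, Integrable
      (({ω | ¬ M.chs act (rmap d Z hZ o) ω G N ≤ m} : Set Ω).indicator (fun _ => (1 : ℝ))) μ :=
    fun o => (integrable_const 1).indicator (hA o)
  have e1 : ∑ o ∈ range Z, μ.real {ω | ¬ M.chs act (rmap d Z hZ o) ω G N ≤ m} =
      ∫ ω, ∑ o ∈ range Z, ({ω | ¬ M.chs act (rmap d Z hZ o) ω G N ≤ m} : Set Ω).indicator
        (fun _ => (1 : ℝ)) ω ∂μ := by
    rw [integral_finsetSum _ (fun o _ => hint o)]
    refine Finset.sum_congr rfl fun o _ => ?_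
    rw [integral_indicator_const _ (hA o)]
    simp
  rw [e1]
  calc _ ≤ ∫ _ω, (Z : ℝ) / 20 ∂μ := by
        refine integral_mono (integrable_finsetSum _ fun o _ => hint o) (integrable_const _)
          fun ω => ?_
        have e2 : ∑ o ∈ range Z, ({ω | ¬ M.chs act (rmap d Z hZ o) ω G N ≤ m} : Set Ω).indicator
            (fun _ => (1 : ℝ)) ω =
            (((range Z).filter fun o => ¬ M.chs act (rmap d Z hZ o) ω G N ≤ m).card : ℝ) := by
          rw [Finset.card_filter]
          push_cast
          refine Finset.sum_congr rfl fun o _ => ?_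
          rw [Set.indicator_apply]
          rfl
        show ∑ o ∈ range Z, ({ω | ¬ M.chs act (rmap d Z hZ o) ω G N ≤ m} : Set Ω).indicator
            (fun _ => (1 : ℝ)) ω ≤ (Z : ℝ) / 20
        rw [e2]
        have h3 := few M hS ω G N m Z hZ h
        have h4 : (20 : ℝ) * (((range Z).filter fun o =>
            ¬ M.chs act (rmap d Z hZ o) ω G N ≤ m).card : ℝ) ≤ Z := by exact_mod_cast h3
        linarith
    _ = (Z : ℝ) / 20 := by simp

theorem acs_eq (ω : Ω) (G : SimpleGraph (Fin n)) (N : ℕ) :
    M.acs act ω G N = ∑ t ∈ range N, if M.Access act ω G t then 1 else 0 :=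
  Finset.card_filter _ _

theorem meas_acs (G : SimpleGraph (Fin n)) (ha : ∀ t, MeasurableSet {ω | M.Access act ω G t})
    (N F : ℕ) : MeasurableSet {ω | M.acs act ω G N ≤ F} := by
  have h3 : Measurable (fun ω => M.acs act ω G N) := by
    rw [show (fun ω => M.acs act ω G N) = fun ω => ∑ t ∈ range N,
      if M.Access act ω G t then 1 else 0 from funext fun ω => acs_eq M ω G N]
    refine Finset.measurable_fun_sum _ fun t _ => ?_
    exact Measurable.ite (ha t) measurable_const measurable_const
  exact measurableSet_le h3 measurable_const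

/-- few accesses -/
theorem prob_acs (G : SimpleGraph (Fin n)) (ha : ∀ t, MeasurableSet {ω | M.Access act ω G t})
    (φ T : ℝ) (N F : ℕ) (hφ : 0 < φ) (hT : 20 * T ≤ N) (hF : (N : ℝ) ≤ ((F : ℝ) + 1) * φ)
    (h : ∑ t ∈ range N, (μ.real {ω | M.out act ω G t = none} +
      φ * μ.real {ω | M.Access act ω G t}) ≤ T) :
    μ.real {ω | ¬ M.acs act ω G N ≤ F} ≤ 1 / 20 := by
  have hA : MeasurableSet {ω | ¬ M.acs act ω G N ≤ F} := (meas_acs M G ha N F).compl
  have hint : ∀ t, Integrable (({ω | M.Access act ω G t} : Set Ω).indicator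
      (fun _ => (1 : ℝ))) μ := fun t => (integrable_const 1).indicator (ha t)
  have h1 : ((F : ℝ) + 1) * μ.real {ω | ¬ M.acs act ω G N ≤ F} ≤
      ∑ t ∈ range N, μ.real {ω | M.Access act ω G t} := by
    have e1 : ∑ t ∈ range N, μ.real {ω | M.Access act ω G t} =
        ∫ ω, ∑ t ∈ range N, ({ω | M.Access act ω G t} : Set Ω).indicator
          (fun _ => (1 : ℝ)) ω ∂μ := by
      rw [integral_finsetSum _ (fun t _ => hint t)]
      refine Finset.sum_congr rfl fun t _ => ?_
      rw [integral_indicator_const _ (ha t)]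
      simp
    have e2 : ((F : ℝ) + 1) * μ.real {ω | ¬ M.acs act ω G N ≤ F} =
        ∫ ω, ({ω | ¬ M.acs act ω G N ≤ F} : Set Ω).indicator (fun _ => (F : ℝ) + 1) ω ∂μ := by
      rw [integral_indicator_const _ hA, smul_eq_mul, mul_comm]
    rw [e1, e2]
    refine integral_mono ((integrable_const _).indicator hA)
      (integrable_finsetSum _ fun t _ => hint t) fun ω => ?_
    have e3 : ∑ t ∈ range N, ({ω | M.Access act ω G t} : Set Ω).indicator
        (fun _ => (1 : ℝ)) ω = (M.acs act ω G N : ℝ) := by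
      rw [acs_eq]
      push_cast
      refine Finset.sum_congr rfl fun t _ => ?_
      rw [Set.indicator_apply]
      rfl
    show ({ω | ¬ M.acs act ω G N ≤ F} : Set Ω).indicator (fun _ => (F : ℝ) + 1) ω ≤
      ∑ t ∈ range N, ({ω | M.Access act ω G t} : Set Ω).indicator (fun _ => (1 : ℝ)) ω
    rw [e3, Set.indicator_apply]
    split_ifs with hω
    · have h2 : F + 1 ≤ M.acs act ω G N := Nat.lt_of_not_le hω
      exact_mod_cast h2
    · positivity
  have h2 : φ * ∑ t ∈ range N, μ.real {ω | M.Access act ω G t} ≤ T := by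
    refine le_trans ?_ h
    rw [Finset.mul_sum]
    refine Finset.sum_le_sum fun t _ => ?_
    have := measureReal_nonneg (μ := μ) (s := {ω | M.out act ω G t = none})
    linarith
  have hF1 : (0 : ℝ) < (F : ℝ) + 1 := by positivity
  have h3 : ((F : ℝ) + 1) * φ * μ.real {ω | ¬ M.acs act ω G N ≤ F} ≤ T := by
    have := mul_le_mul_of_nonneg_left h1 hφ.le
    nlinarith
  have h4 : ((F : ℝ) + 1) * φ * μ.real {ω | ¬ M.acs act ω G N ≤ F} ≤
      ((F : ℝ) + 1) * φ * (1 / 20) := by
    linarith
  exact le_of_mul_le_mul_left h4 (by positivity)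

end Prob

end RNUx

/-- **RNU** -/
theorem t_RNU (hS : S_SHF) : S_RNU := by
  intro n d Q Γ A X Ω _ _ μ _ M G φ T N m F Z hZ hφ hN hT h20 hF hv hp ha hd hE
  have hZ0 : (0 : ℝ) < Z := by exact_mod_cast hZ
  have hE' : ∀ k : ℕ, ∑ t ∈ range k, μ.real {ω | M.out act ω G t = none} ≤ T := fun k => by
    refine le_trans (Finset.sum_le_sum fun t _ => ?_) (hE k)
    have := mul_nonneg hφ.le (measureReal_nonneg (μ := μ) (s := {ω | M.Access act ω G t}))
    linarith
  have hmeas : ∀ o, MeasurableSet {ω | M.out act ω G N = some false ∧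
      M.chs act (rmap d Z hZ o) ω G N ≤ m ∧ M.acs act ω G N ≤ F} := fun o =>
    (RNUx.meas_out M G hv N (some false)).inter
      ((RNUx.meas_chs M G (rmap d Z hZ o) hp N m).inter (RNUx.meas_acs M G ha N F))
  refine ⟨hmeas, fun hG => ?_, fun hG => ?_⟩
  · have h1 := RNUx.prob_free M μ G hG hd N (RNUx.prob_none M μ G T N hN hT hE')
    have h2 := RNUx.sum_bad M μ hS G N m Z hZ h20 hp
    have h5 := RNUx.prob_acs M μ G ha φ T N F hφ hT hF (hE N)
    have h3 : ∀ o, μ.real {ω | M.out act ω G N = some false} ≤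
        μ.real {ω | M.out act ω G N = some false ∧ M.chs act (rmap d Z hZ o) ω G N ≤ m ∧
          M.acs act ω G N ≤ F} +
          μ.real {ω | ¬ M.chs act (rmap d Z hZ o) ω G N ≤ m} + 1 / 20 := by
      intro o
      have h6 : μ.real {ω | M.out act ω G N = some false} ≤
          μ.real {ω | M.out act ω G N = some false ∧ M.chs act (rmap d Z hZ o) ω G N ≤ m ∧
            M.acs act ω G N ≤ F} +
            μ.real ({ω | ¬ M.chs act (rmap d Z hZ o) ω G N ≤ m} ∪
              {ω | ¬ M.acs act ω G N ≤ F}) := by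
        refine le_trans (measureReal_mono ?_ (measure_ne_top _ _)) (measureReal_union_le _ _)
        intro ω hω
        by_cases hc : M.chs act (rmap d Z hZ o) ω G N ≤ m
        · by_cases hc' : M.acs act ω G N ≤ F
          · exact Or.inl ⟨hω, hc, hc'⟩
          · exact Or.inr (Or.inr hc')
        · exact Or.inr (Or.inl hc)
      have h7 := measureReal_union_le (μ := μ) {ω | ¬ M.chs act (rmap d Z hZ o) ω G N ≤ m}
        {ω | ¬ M.acs act ω G N ≤ F}
      linarith
    have h4 : (Z : ℝ) * μ.real {ω | M.out act ω G N = some false} ≤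
        ∑ o ∈ range Z, μ.real {ω | M.out act ω G N = some false ∧
          M.chs act (rmap d Z hZ o) ω G N ≤ m ∧ M.acs act ω G N ≤ F} +
        ∑ o ∈ range Z, μ.real {ω | ¬ M.chs act (rmap d Z hZ o) ω G N ≤ m} + Z * (1 / 20) := by
      calc (Z : ℝ) * μ.real {ω | M.out act ω G N = some false} =
          ∑ _o ∈ range Z, μ.real {ω | M.out act ω G N = some false} := by
            rw [Finset.sum_const, Finset.card_range, nsmul_eq_mul]
        _ ≤ ∑ o ∈ range Z, (μ.real {ω | M.out act ω G N = some false ∧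
              M.chs act (rmap d Z hZ o) ω G N ≤ m ∧ M.acs act ω G N ≤ F} +
              μ.real {ω | ¬ M.chs act (rmap d Z hZ o) ω G N ≤ m} + 1 / 20) :=
            Finset.sum_le_sum fun o _ => h3 o
        _ = _ := by
            rw [Finset.sum_add_distrib, Finset.sum_add_distrib, Finset.sum_const,
              Finset.card_range, nsmul_eq_mul]
    unfold prK
    rw [le_div_iff₀ hZ0]
    nlinarith
  · have h1 := RNUx.prob_tri M μ G hG hv hd N
    unfold prK
    rw [div_le_iff₀ hZ0]
    calc _ ≤ ∑ _o ∈ range Z, (1 / 3 : ℝ) := by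
          refine Finset.sum_le_sum fun o _ => ?_
          refine le_trans (measureReal_mono ?_ (measure_ne_top _ _)) h1
          intro ω hω
          exact hω.1
      _ = 1 / 3 * Z := by
          rw [Finset.sum_const, Finset.card_range, nsmul_eq_mul]
          ring

end Pool.Agent.TGK
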