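import Pool.Agent.TGK.St2

/-!
# Project TGK: module TAQ (the main theorem)
-/

set_option autoImplicit false

open Finset Equiv MeasureTheory
open scoped Classical

namespace Pool.Agent.TGK

open Pool.Agent.RMS (Cell Dir act)
open Pool.Agent.TGM (GFast S_ABM)

namespace TAQx

open Filter

theorem large (e : ℝ) (he : 0 < e) (A : ℝ) : ∃ s2 : ℕ, ∀ s : ℕ, s2 ≤ s →
    A ≤ (s : ℝ) ^ e ∧ 1 < Real.log s ∧ 1 < e * Real.log s ∧ 0 < (s : ℝ) := by
  have h1 : Tendsto (fun s : ℕ => (s : ℝ) ^ e) atTop atTop :=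
    (tendsto_rpow_atTop he).comp tendsto_natCast_atTop_atTop
  have h2 : Tendsto (fun s : ℕ => Real.log (s : ℝ)) atTop atTop :=
    Real.tendsto_log_atTop.comp tendsto_natCast_atTop_atTop
  have h3 : Tendsto (fun s : ℕ => e * Real.log (s : ℝ)) atTop atTop := h2.const_mul_atTop he
  have h4 := (h1.eventually_ge_atTop A).and ((h2.eventually_gt_atTop 1).and
    ((h3.eventually_gt_atTop 1).and (eventually_gt_atTop 0)))
  obtain ⟨s2, hs2⟩ := eventually_atTop.1 h4
  exact ⟨s2, fun s hs => ⟨(hs2 s hs).1, (hs2 s hs).2.1, (hs2 s hs).2.2.1,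
    Nat.cast_pos.2 (hs2 s hs).2.2.2⟩⟩

/-- `a (M / log M) ≤ m' / log m'` if `a M ≤ m' ≤ M` and `1 < m'` -/
theorem ratio {a M m' : ℝ} (h1 : a * M ≤ m') (h2 : m' ≤ M) (h3 : 1 < m') (ha : 0 < a) :
    a * (M / Real.log M) ≤ m' / Real.log m' := by
  have h4 : 0 < Real.log m' := Real.log_pos h3
  have h5 : Real.log m' ≤ Real.log M := Real.log_le_log (by linarith) h2
  have h6 : 0 ≤ a * M := mul_nonneg ha.le (by linarith)
  calc a * (M / Real.log M) = a * M / Real.log M := by ring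
    _ ≤ a * M / Real.log m' := div_le_div_of_nonneg_left h6 h4 h5
    _ ≤ m' / Real.log m' := div_le_div_of_nonneg_right h1 h4.le

end TAQx

theorem t_TAQ (h1 : S_ABM) (h2 : S_TGK) : S_TAQ := by
  intro d κ ε hd hε hε1
  obtain ⟨c1, hc1, s₀, H⟩ := h1 (3 * κ + 3) (ε / 4) (by linarith) (by linarith)
  obtain ⟨s1, HT⟩ := h2 d κ ε hd hε hε1
  have hd' : (1 : ℝ) ≤ d := by exact_mod_cast hd
  have he : 0 < ε / (8 * d) := by positivity
  have he1 : ε / (8 * d) ≤ 1 := by
    rw [div_le_one (by positivity)]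
    nlinarith
  obtain ⟨s2, hs2⟩ := TAQx.large (ε / (8 * d)) he s₀
  refine ⟨c1 * (ε / (8 * d)), by positivity, max (max s₀ 3) (max s1 s2), fun s φ hs hφ => ?_⟩
  have hss0 : s₀ ≤ s := ((le_max_left _ _).trans (le_max_left _ _)).trans hs
  have hss1 : s1 ≤ s := ((le_max_left _ _).trans (le_max_right _ _)).trans hs
  have hss2 : s2 ≤ s := ((le_max_right _ _).trans (le_max_right _ _)).trans hs
  have hφ0 : (s₀ : ℝ) ≤ φ :=
    (Nat.cast_le.2 ((le_max_left _ _).trans (le_max_left _ _))).trans hφ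
  have hφ3 : (3 : ℝ) ≤ φ := by
    refine le_trans ?_ hφ
    exact_mod_cast (le_max_right s₀ 3).trans (le_max_left (max s₀ 3) (max s1 s2))
  obtain ⟨h3, h4, h5, h6⟩ := hs2 s hss2
  obtain ⟨n, δ, h7, h8⟩ := H s (min φ ((s : ℝ) ^ (ε / (8 * d)))) hss0 (le_min hφ0 h3)
  refine ⟨n, δ, h7, ?_⟩
  intro Q Γ A X Ω _ _ _ _ _ μ _ M T hQ hΓ hA hX hM hT
  have h9 := h8 T (HT s hss1 φ n δ Q Γ A X Ω μ M T (by linarith) hQ hΓ hA hX hM hT)
  refine le_trans ?_ h9
  have hlog : Real.log ((s : ℝ) ^ (ε / (8 * d))) = ε / (8 * d) * Real.log s := Real.log_rpow h6 _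
  have hl3 : 1 < Real.log φ := by
    rw [Real.lt_log_iff_exp_lt (by linarith)]
    have := Real.exp_one_lt_d9
    linarith
  have hmin' : Real.log (min φ ((s : ℝ) ^ (ε / (8 * d)))) =
      min (Real.log φ) (ε / (8 * d) * Real.log s) := by
    rw [← hlog]
    rcases le_total φ ((s : ℝ) ^ (ε / (8 * d))) with h | h
    · rw [min_eq_left h, min_eq_left (Real.log_le_log (by linarith) h)]
    · rw [min_eq_right h, min_eq_right (Real.log_le_log (Real.rpow_pos_of_pos h6 _) h)]
  rw [hmin']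
  have hle : ε / (8 * d) * Real.log s ≤ Real.log s := by nlinarith
  have hm : 1 < min (Real.log s) (min (Real.log φ) (ε / (8 * d) * Real.log s)) :=
    lt_min h4 (lt_min hl3 h5)
  have hm1 : min (Real.log s) (min (Real.log φ) (ε / (8 * d) * Real.log s)) ≤
      min (Real.log s) (Real.log φ) := min_le_min le_rfl (min_le_left _ _)
  have hm2 : ε / (8 * d) * min (Real.log s) (Real.log φ) ≤
      min (Real.log s) (min (Real.log φ) (ε / (8 * d) * Real.log s)) := by
    have ha : ε / (8 * d) * min (Real.log s) (Real.log φ) ≤ ε / (8 * d) * Real.log s :=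
      mul_le_mul_of_nonneg_left (min_le_left _ _) he.le
    have hb : ε / (8 * d) * min (Real.log s) (Real.log φ) ≤ ε / (8 * d) * Real.log φ :=
      mul_le_mul_of_nonneg_left (min_le_right _ _) he.le
    refine le_min (ha.trans hle) (le_min (hb.trans ?_) ha)
    nlinarith
  have hr := TAQx.ratio hm2 hm1 hm he
  calc c1 * (ε / (8 * d)) * s * (min (Real.log s) (Real.log φ) /
        Real.log (min (Real.log s) (Real.log φ)))
      = c1 * s * (ε / (8 * d) * (min (Real.log s) (Real.log φ) /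
        Real.log (min (Real.log s) (Real.log φ)))) := by ring
    _ ≤ c1 * s * (min (Real.log s) (min (Real.log φ) (ε / (8 * d) * Real.log s)) /
        Real.log (min (Real.log s) (min (Real.log φ) (ε / (8 * d) * Real.log s)))) :=
        mul_le_mul_of_nonneg_left hr (by positivity)

end Pool.Agent.TGK
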