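import Pool.Agent.TGK.St1

/-!
# Project TGK, module TGK: machines with a tape and a main memory as abstract randomised algorithms
-/

set_option autoImplicit false

open Finset Equiv MeasureTheory
open scoped Classical

namespace Pool.Agent.TGK

open Pool.Agent.TS (Query answer)
open Pool.Agent.TR (HasDegrees qans)
open Pool.Agent.HR (DS)
open Pool.Agent.PPS (SS Op)
open Pool.Agent.RMS (Cf TM Cell Dir act mvo rmap box Tra Vld rm S_SHF S_AVD)
open Pool.Agent.TGM (row rans xin QEnc Comp Hull GFast S_LOC2 S_UDS S_CVT)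

/-- `cntk` is monotone in the size of the questions -/
theorem tgk_cnt_mono (v γ o b u u' k N m F r : ℕ) (h : u ≤ u') :
    cntk v γ o b u k N m F r ≤ cntk v γ o b u' k N m F r := by
  unfold cntk
  gcongr

theorem tgk_cnt_pos (v γ o b u k N m F r : ℕ) (h : 1 ≤ v) : 1 ≤ cntk v γ o b u k N m F r := by
  unfold cntk
  have h1 : 0 < v := h
  exact Nat.succ_le_of_lt (by positivity)

/-- the mean of events, each of which satisfies a linear inequality -/
theorem tgk_mean {ι Ω : Type} [Fintype ι] [MeasurableSpace Ω] (μ : Measure Ω)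
    [IsProbabilityMeasure μ] (a : ι → ℝ) (c : ℝ) (S : ι → Set Ω) (hS : ∀ z, MeasurableSet (S z))
    (h : ∀ ω, ∑ z, a z * (if ω ∈ S z then (1 : ℝ) else 0) ≤ c) : ∑ z, a z * μ.real (S z) ≤ c := by
  have hint : ∀ z, Integrable (fun ω => a z * (if ω ∈ S z then (1 : ℝ) else 0)) μ := by
    intro z
    have h1 : (fun ω => a z * (if ω ∈ S z then (1 : ℝ) else 0)) =
        (S z).indicator fun _ => a z := by
      funext ω
      by_cases h2 : ω ∈ S z
      · simp [h2]
      · simp [h2]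
    rw [h1]
    exact (integrable_const (a z)).indicator (hS z)
  have h1 : ∑ z, a z * μ.real (S z) =
      ∫ ω, ∑ z, a z * (if ω ∈ S z then (1 : ℝ) else 0) ∂μ := by
    rw [integral_finsetSum _ fun z _ => hint z]
    refine Finset.sum_congr rfl fun z _ => ?_
    have h1 : (fun ω => a z * (if ω ∈ S z then (1 : ℝ) else 0)) =
        (S z).indicator fun _ => a z := by
      funext ω
      by_cases h2 : ω ∈ S z
      · simp [h2]
      · simp [h2]
    rw [h1, integral_indicator_const _ (hS z), smul_eq_mul, mul_comm]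
  rw [h1]
  calc ∫ ω, ∑ z, a z * (if ω ∈ S z then (1 : ℝ) else 0) ∂μ ≤ ∫ _ω, c ∂μ :=
        integral_mono (integrable_finsetSum _ fun z _ => hint z) (integrable_const c) h
    _ = c := by simp

/-- The machines of a seed for given accesses form a family in the sense of `Fam`. -/
theorem tgk_fam (h4 : S_ENU) {n : ℕ} {Q Γ L D A X Ω K U : Type} [Zero L] [Fintype U]
    (M : Machine n Q Γ L D A X Ω) (ac : D → L → L) (ω : Ω)
    (Gr : (K → Perm U) → SimpleGraph (Fin n)) (tq : Query n → Option (K × Bool × U))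
    (hq : QEnc Gr tq) : Fam (ktm M ω Gr tq) ac xin fun z => M.ev ac ω (Gr z) := by
  obtain ⟨_, e2, e3⟩ := h4 n Q Γ L D A X Ω K U M ac ω Gr tq hq
  refine ⟨fun z ρ T hρ t ht => ?_, e3⟩
  have h1 := e2 z ρ T hρ t ht
  have h2 := e2 z (M.ev ac ω (Gr z)) T (fun _ _ => rfl) t ht
  refine ⟨h1.trans h2.symm, ?_⟩
  rw [h1]
  exact Option.some_ne_none _

/-- the accesses to the main memory are the events -/
theorem tgk_ev_isSome {n : ℕ} {Q Γ L D A X Ω : Type} [Zero L] (M : Machine n Q Γ L D A X Ω)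
    (ac : D → L → L) (ω : Ω) (G : SimpleGraph (Fin n)) (t : ℕ) :
    (M.ev ac ω G t).isSome ↔ M.Access ac ω G t := by
  unfold Machine.ev Machine.Access
  by_cases h : (M.out ac ω G t).isSome
  · rw [if_pos h]
    constructor
    · intro h1
      exact absurd h1 (by simp)
    · rintro ⟨h1, _⟩
      rw [h1] at h
      exact absurd h (by simp)
  · rw [if_neg h, Option.isSome_map]
    constructor
    · intro h1
      exact ⟨by simpa using h, h1⟩
    · rintro ⟨_, h1⟩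
      exact h1

/-- The event of a seed and a shift is decided by an abstract computation. -/
theorem tgk_comp (h1 : S_SHF) (h2 : S_AVD) (h3 : S_DSU) (h4 : S_ENU) {n d : ℕ}
    {Q Γ A X Ω K U : Type} [Fintype Q] [Fintype Γ] [Fintype A] [Fintype X] [Fintype K] [Fintype U]
    [DecidableEq K] [DecidableEq U] (M : Machine n Q Γ (Cell d) (Dir d) A X Ω) (ω : Ω)
    (Gr : (K → Perm U) → SimpleGraph (Fin n)) (tq : Query n → Option (K × Bool × U))
    (hq : QEnc Gr tq) (r ℓ m F Z s o : ℕ) (hZ : 0 < Z) (hℓ : 3 ≤ ℓ) (hr : 0 < r)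
    (hU : Fintype.card U ≤ s) :
    Comp (4 * r + 1) ℓ (r * ℓ) (cntk (Fintype.card Q) (Fintype.card Γ) (Z ^ d)
      ((2 * (r * ℓ) + 1) ^ d) s (Fintype.card (A × X × X)) (r * ℓ) m F (4 * r + 1))
      fun z : K → Perm U =>
      M.out act ω (Gr z) (r * ℓ) = some false ∧
        M.chs act (rmap d Z hZ o) ω (Gr z) (r * ℓ) ≤ m ∧ M.acs act ω (Gr z) (r * ℓ) ≤ F := by
  obtain ⟨e1, e2, _⟩ := h4 n Q Γ (Cell d) (Dir d) A X Ω K U M act ω Gr tq hq
  obtain ⟨X', Y, g, st, hg, hst, hhit, hsum, htg⟩ := h3 K U Q Γ (Cell d) (Dir d) (Cell d)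
    (Fin d → Fin Z) (A × X × X) (ktm M ω Gr tq) act (rmap d Z hZ o)
    (fun z => M.ev act ω (Gr z)) (box d (r * ℓ)) (r * ℓ) m F ((ℓ - 1) / 2)
    (4 * r + 1) (tgk_fam h4 M act ω Gr tq hq) e1
    (fun z t ht => ((h1 d).2.2.1.2 t (r * ℓ) ht)
      ((h2 (K × U × U) (Option Q) Γ d (ktm M ω Gr tq (M.ev act ω (Gr z))) (xin z)).1 t))
    (by omega)
    (by
      have hl : ℓ ≤ 4 * ((ℓ - 1) / 2) := by omega
      have hl0 : 0 < (ℓ - 1) / 2 := by omega
      nlinarith)
  have e2' : ∀ z t, (ktm M ω Gr tq (M.ev act ω (Gr z))).conf act (xin z) t =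
      ⟨some (M.run act ω (Gr z) t).v, (M.run act ω (Gr z) t).p, (M.run act ω (Gr z) t).c⟩ :=
    fun z t => e2 z (M.ev act ω (Gr z)) t (fun _ _ => rfl) t le_rfl
  refine ⟨X', Y, fun x => g x ∧ M.output (st x) = some false, fun z j => (hhit z j).trans (by omega),
    hsum, ?_, ?_⟩
  · refine htg.trans ?_
    have hc : Fintype.card (Fin d → Fin Z) = Z ^ d := by simp
    rw [hc, (h1 d).2.2.2]
    exact tgk_cnt_mono _ _ _ _ _ _ _ _ _ _ _ hU
  · intro z
    have hchs : M.chs act (rmap d Z hZ o) ω (Gr z) (r * ℓ) =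
        ∑ t ∈ range (r * ℓ), (ktm M ω Gr tq (M.ev act ω (Gr z))).chg act (rmap d Z hZ o)
          (xin z) t := by
      unfold Machine.chs
      rw [Finset.card_filter]
      refine Finset.sum_congr rfl fun t _ => ?_
      unfold RMS.TM.chg
      rw [e2' z (t + 1), e2' z t]
      by_cases h : (rmap d Z hZ o (M.run act ω (Gr z) (t + 1)).p).1 =
          (rmap d Z hZ o (M.run act ω (Gr z) t).p).1
      · rw [if_pos h, if_neg (not_not.2 h)]
      · rw [if_neg h, if_pos h]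
    have hacs : M.acs act ω (Gr z) (r * ℓ) =
        ((range (r * ℓ)).filter fun t => (M.ev act ω (Gr z) t).isSome).card := by
      unfold Machine.acs
      congr 1
      refine Finset.filter_congr fun t _ => ?_
      exact (tgk_ev_isSome M act ω (Gr z) t).symm
    show (M.out act ω (Gr z) (r * ℓ) = some false ∧
        M.chs act (rmap d Z hZ o) ω (Gr z) (r * ℓ) ≤ m ∧ M.acs act ω (Gr z) (r * ℓ) ≤ F) ↔
      (g (Y.tr z) ∧ M.output (st (Y.tr z)) = some false)
    rw [hchs, hacs, ← hg z]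
    have hrun : g (Y.tr z) → st (Y.tr z) = (M.run act ω (Gr z) (r * ℓ)).v := by
      intro hgz
      have h7 := hst z hgz
      rw [e2' z] at h7
      exact (Option.some_injective _ h7).symm
    constructor
    · rintro ⟨ho, hgz⟩
      refine ⟨hgz, ?_⟩
      rw [hrun hgz]
      exact ho
    · rintro ⟨hgz, ho⟩
      refine ⟨?_, hgz⟩
      rw [hrun hgz] at ho
      exact ho

/-- TGK. -/
theorem t_TGK (h1 : S_SHF) (h2 : S_AVD) (h3 : S_DSU) (h4 : S_ENU) (h5 : S_RNU) (h6 : S_TNV) :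
    S_TGK := by
  intro d κ ε hd hε hε1
  obtain ⟨s1, hs1⟩ := h6 d κ ε hd hε hε1
  refine ⟨s1, fun s hs φ n δ Q Γ A X Ω _ _ _ _ _ μ _ M T hφ hQ hΓ hA hX hdet hexp r ℓ hℓ hr hT
    hN => ?_⟩
  obtain ⟨Z, hZ, hcnt⟩ := hs1 s hs
  have hΩ : Nonempty Ω := by
    by_contra hne
    rw [not_nonempty_iff] at hne
    have h7 : μ Set.univ = 1 := measure_univ
    rw [Set.univ_eq_empty_iff.2 hne, measure_empty] at h7
    exact zero_ne_one h7
  obtain ⟨ω0⟩ := hΩ
  have hv : 1 ≤ Fintype.card Q := Fintype.card_pos_iff.2 ⟨M.start ω0⟩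
  have hγ : 1 ≤ Fintype.card Γ := Fintype.card_pos_iff.2 ⟨M.init ω0 0⟩
  have hN0 : 0 < r * ℓ := Nat.mul_pos hr (by omega)
  have hE : Fintype.card (A × X × X) ≤ s ^ (3 * κ) := by
    rw [Fintype.card_prod, Fintype.card_prod]
    calc Fintype.card A * (Fintype.card X * Fintype.card X) ≤ s ^ κ * (s ^ κ * s ^ κ) :=
          Nat.mul_le_mul hA (Nat.mul_le_mul hX hX)
      _ = s ^ (3 * κ) := by
          rw [← pow_add, ← pow_add]
          congr 1
          omega
  obtain ⟨m, F, hm, hF, hlog⟩ := hcnt (Fintype.card Q) (Fintype.card Γ) s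
    (Fintype.card (A × X × X)) (r * ℓ) r φ hv hγ hQ hΓ le_rfl hE hN hr hφ
  have hrnt := fun (G : SimpleGraph (Fin n)) (hG : HasDegrees G δ) =>
    h5 n d Q Γ A X Ω μ M G φ T (r * ℓ) m F Z hZ (lt_of_lt_of_le one_pos hφ) hN0
      (by push_cast; exact hT) hm hF (hdet G hG).1
      (hdet G hG).2.1 (hdet G hG).2.2.1 (hdet G hG).2.2.2 (hexp G hG)
  refine ⟨prK M μ (r * ℓ) m F Z hZ, cntk (Fintype.card Q) (Fintype.card Γ) (Z ^ d)
      ((2 * (r * ℓ) + 1) ^ d) s (Fintype.card (A × X × X)) (r * ℓ) m F (4 * r + 1),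
    fun G hG => (hrnt G hG).2, tgk_cnt_pos _ _ _ _ _ _ _ _ _ _ hv, hlog, ?_⟩
  intro K U _ _ _ _ Gr tq hU hq hdeg a c hac
  have hZ0 : (0 : ℝ) < Z := by exact_mod_cast hZ
  have key : ∀ o, ∑ z, a z * μ.real {ω | M.out act ω (Gr z) (r * ℓ) = some false ∧
      M.chs act (rmap d Z hZ o) ω (Gr z) (r * ℓ) ≤ m ∧ M.acs act ω (Gr z) (r * ℓ) ≤ F} ≤ c := by
    intro o
    refine tgk_mean μ a c _ (fun z => (hrnt (Gr z) (hdeg z)).1 o) fun ω => ?_
    exact hac _ (tgk_comp h1 h2 h3 h4 M ω Gr tq hq r ℓ m F Z s o hZ hℓ hr hU)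
  show ∑ z, a z * ((∑ o ∈ range Z, μ.real {ω | M.out act ω (Gr z) (r * ℓ) = some false ∧
      M.chs act (rmap d Z hZ o) ω (Gr z) (r * ℓ) ≤ m ∧
      M.acs act ω (Gr z) (r * ℓ) ≤ F}) / Z) ≤ c
  have h7 : ∑ z, a z * ((∑ o ∈ range Z, μ.real {ω | M.out act ω (Gr z) (r * ℓ) = some false ∧
      M.chs act (rmap d Z hZ o) ω (Gr z) (r * ℓ) ≤ m ∧ M.acs act ω (Gr z) (r * ℓ) ≤ F}) / Z) =
      (∑ o ∈ range Z, ∑ z, a z * μ.real {ω | M.out act ω (Gr z) (r * ℓ) = some false ∧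
      M.chs act (rmap d Z hZ o) ω (Gr z) (r * ℓ) ≤ m ∧ M.acs act ω (Gr z) (r * ℓ) ≤ F}) / Z := by
    rw [Finset.sum_comm, Finset.sum_div]
    refine Finset.sum_congr rfl fun z _ => ?_
    rw [← Finset.mul_sum, mul_div_assoc]
  rw [h7, div_le_iff₀ hZ0]
  calc ∑ o ∈ range Z, ∑ z, a z * μ.real {ω | M.out act ω (Gr z) (r * ℓ) = some false ∧
      M.chs act (rmap d Z hZ o) ω (Gr z) (r * ℓ) ≤ m ∧
      M.acs act ω (Gr z) (r * ℓ) ≤ F} ≤ ∑ _o ∈ range Z, c :=
        Finset.sum_le_sum fun o _ => key o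
    _ = c * Z := by rw [Finset.sum_const, card_range, nsmul_eq_mul, mul_comm]

end Pool.Agent.TGK
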