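import Pool.Agent.TGM.Main
import Pool.Agent.TGK.PRU
import Pool.Agent.TGK.DSU
import Pool.Agent.TGK.ENU
import Pool.Agent.TGK.RNU
import Pool.Agent.TGK.TNV
import Pool.Agent.TGK.TGK
import Pool.Agent.TGK.TAQ

/-!
# Project TGK: the main theorem
-/

set_option autoImplicit false

namespace Pool.Agent.TGK

theorem dsu : S_DSU := t_DSU (TGM.t_LOC2 RMS.t_TRU RMS.t_OWN) TGM.t_UDS t_PRU (TGM.t_CVT RSA.t_DS)

theorem tgk : S_TGK := t_TGK RMS.t_SHF (RMS.t_AVD RMS.t_SHF) dsu t_ENU (t_RNU RMS.t_SHF) t_TNV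

theorem taq : S_TAQ := t_TAQ TGM.abm tgk

end Pool.Agent.TGK
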