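import Pool.Agent.TGK.Defs
import Pool.Agent.TGM.St1

/-!
# Project TGK: statements, part 1

THEOREM (`S_TAQ`, part 2).  A randomised machine with random access to the graph, `2 ^ (s ^ ((1 - ε) / d))` states,
one unlimited tape of dimension `d` (cells of `s ^ (ε / 2)` bits) and a main memory of `s ^ κ` registers with
`s ^ κ` contents each, an access to which costs `φ`, needs cost `c s m / log m`, `m = min (log s) (log φ)`, to
detect triangles. (Without main memory: project TGM.)

IDEA.  The accesses to the main memory are few, so they can be announced: `ρ t` is the register, the old and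
the new content. Given `ρ` there is a machine with only a tape (`ktm`), which checks the register and the
new content; the old content is right automatically if `ρ` comes from the run on some other input, because
the contents of the main memory are determined by the accesses before. So the modules are those of project
TGM for the machine `ktm .. ρ`, `ρ` being part of the trace.

Every module proves one `S_XXX` as `theorem Pool.Agent.TGK.t_XXX : S_XXX`, or, if it uses other
statements, `theorem t_XXX (h : S_YYY) ... : S_XXX` with exactly the hypotheses named in the doc string, in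
this order.
-/

set_option autoImplicit false

open Finset Equiv MeasureTheory
open scoped Classical

namespace Pool.Agent.TGK

open Pool.Agent.TS (Query answer)
open Pool.Agent.TR (HasDegrees qans)
open Pool.Agent.HR (DS)
open Pool.Agent.PPS (SS Op)
open Pool.Agent.RMS (Cf TM Cell Dir act mvo rmap box Tra Vld rm S_SHF S_AVD)
open Pool.Agent.TGM (row rans xin QEnc Comp Hull GFast S_LOC2 S_UDS S_CVT)

/-- The hypotheses on a family of machines `R ρ` (states `Option V`, `none`: a check has failed), inputs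
`inp z` and events `ev z`: if `ρ` agrees with `ev z` before time `T` then the run of `R ρ` on `inp z` is that of
`R (ev z)` up to time `T`, and no check fails; if `ρ` comes from some `z'` (before time `T`) and no check fails
for `z` up to time `T` then `ρ` agrees with `ev z` before time `T`. -/
def Fam {P V Γ L D E ζ : Type} [Zero L] (R : (ℕ → Option E) → TM P (Option V) Γ L D)
    (ac : D → L → L) (inp : ζ → P → Bool) (ev : ζ → ℕ → Option E) : Prop :=
  (∀ z ρ T, (∀ t < T, ρ t = ev z t) → ∀ t ≤ T, (R ρ).conf ac (inp z) t = (R (ev z)).conf ac (inp z) t ∧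
    ((R ρ).conf ac (inp z) t).v ≠ none) ∧
  ∀ z z' ρ T, (∀ t < T, ρ t = ev z' t) → ((R ρ).conf ac (inp z) T).v ≠ none → ∀ t < T, ρ t = ev z t

/-- PRU.  The traces and the events, stopped if there are `m + 1` changes of the room or `F + 1` events.
Proof.  Compare Pool/Agent/TGM/PRT.lean (and Pool/Agent/RMS/IDX.lean); here it is simpler. For `z` let
`c1 t`, `c2 t` be the numbers of the changes of the room (of `R (ev z)` on `inp z`) and of the events before
time `t`, and `T z` = the least `T ≤ N` with `m < c1 T` or `F < c2 T`, or `N` if there is none; so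
`c1 (T z) ≤ m + 1`, `c2 (T z) ≤ F + 1` (both grow by at most 1). Let `data z` be the quadruple of `T z`, the
trace before `T z` (`Fin N → Option (Option V × B)`, `none` from `T z` on), the events before `T z`
(`Fin N → Option E`, `none` from `T z` on) and the `w` with `v = some w` at time `T z`; `ι` = the range of `data`
(a subtype of a finite type). The number: an injection to `Fin (N + 1) × (Fin (m + 1) → Option (Fin N × ..)) ×
(Fin (F + 1) → Option (Fin N × E)) × V` as in PRT. `good i`: for some `z` with `data z = i`, `c1 N ≤ m` and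
`c2 N ≤ F`. If `i = data z'` fits `z`: by `Fam` the events of `z` and `z'` before `T z'` are the same and the run
of `R (ρ i)` on `inp z` is the real one up to `T z'`, so by `Tra` the changes are the same as for `z'`; so `c1`,
`c2` agree up to `T z'`, hence `T z = T z'`, `data z = data z'`, and the same holds for the truth of
`c1 N ≤ m ∧ c2 N ≤ F` (it holds iff neither `m < c1 T` nor `F < c2 T` for `T = T z`). -/
def S_PRU : Prop := ∀ (P V Γ L D I O E ζ : Type) [Zero L] [Fintype V] [Fintype E]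
  (R : (ℕ → Option E) → TM P (Option V) Γ L D) (ac : D → L → L) (e : L ≃ I × O)
  (inp : ζ → P → Bool) (ev : ζ → ℕ → Option E) (N m F : ℕ) (B : Finset L),
  Fam R ac inp ev → (∀ z, ∀ t ≤ N, ((R (ev z)).conf ac (inp z) t).p ∈ B) →
  ∃ (ι : Type) (_ : Fintype ι) (Tm : ι → ℕ) (τ : ι → ℕ → Option (Option V × L))
    (ρ : ι → ℕ → Option E) (w : ι → V) (good : ι → Prop),
    Fintype.card ι ≤ (N + 1) * ((N + 1) * (Fintype.card V + 1) * B.card + 1) ^ (m + 1) *
      ((N + 1) * Fintype.card E + 1) ^ (F + 1) * Fintype.card V ∧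
    (∀ i, Tm i ≤ N ∧ Vld e (τ i) ∧ ((range (Tm i)).image (rm e (τ i))).card ≤ m + 2) ∧
    ∀ z, (∃! i, Tra (R (ρ i)) ac e (τ i) (inp z) (Tm i) ∧
        ((R (ρ i)).conf ac (inp z) (Tm i)).v = some (w i)) ∧
      ∀ i, Tra (R (ρ i)) ac e (τ i) (inp z) (Tm i) ∧
        ((R (ρ i)).conf ac (inp z) (Tm i)).v = some (w i) →
        (good i ↔ ∑ t ∈ range N, (R (ev z)).chg ac e (inp z) t ≤ m ∧
          ((range N).filter fun t => (ev z t).isSome).card ≤ F) ∧
        (good i → ((R (ev z)).conf ac (inp z) N).v = some (w i))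

/-- the bound for the number of the transcripts -/
def cntk (v γ o b u k N m F r : ℕ) : ℕ :=
  (N + 1) * ((N + 1) * (v + 1) * b + 1) ^ (m + 1) * ((N + 1) * k + 1) ^ (F + 1) * v *
    (100 * (N + 1) ^ 2 * (((m + 2) * N + 1) *
      (1 + (v + 1) * o * γ ^ o * (N * u + 1)) + 1) ^ 2) ^ (r + 2)

/-- DSU (uses `TGM.S_LOC2`, `TGM.S_UDS`, `S_PRU`, `TGM.S_CVT`).  A deterministic machine with a tape and few
events as an abstract computation with few transcripts.
Proof.  Copy Pool/Agent/TGM/DST.lean with `R (ρ i)` in place of `R` (states `Option V`), the state `some (w i)`,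
`ζ = K → Perm U`, `inp = xin`. -/
def S_DSU : Prop := ∀ (K U V Γ L D I O E : Type) [Fintype K] [Fintype U] [DecidableEq K]
  [DecidableEq U] [Zero L] [Fintype V] [Fintype Γ] [Fintype O] [Fintype E]
  (R : (ℕ → Option E) → TM (K × U × U) (Option V) Γ L D) (ac : D → L → L) (e : L ≃ I × O)
  (ev : (K → Perm U) → ℕ → Option E) (B : Finset L) (N m F ℓ r : ℕ),
  Fam R ac xin ev → (∀ ρ t v a, (R ρ).rd t v a = ∅ ∨ ∃ q, (R ρ).rd t v a = row q) →
  (∀ z, ∀ t ≤ N, ((R (ev z)).conf ac (xin z) t).p ∈ B) → 0 < ℓ → N < ℓ * r →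
  ∃ (X : Type) (Y : DS K U X r) (g : X → Prop) (st : X → V),
    (∀ z, g (Y.tr z) ↔ ∑ t ∈ range N, (R (ev z)).chg ac e (xin z) t ≤ m ∧
      ((range N).filter fun t => (ev z t).isSome).card ≤ F) ∧
    (∀ z, g (Y.tr z) → ((R (ev z)).conf ac (xin z) N).v = some (st (Y.tr z))) ∧
    (∀ z j, (Y.hit z j).card ≤ 2 * ℓ + 1) ∧ (∀ z, ∑ j, (Y.hit z j).card ≤ N) ∧
    Y.tg.card ≤ cntk (Fintype.card V) (Fintype.card Γ) (Fintype.card O) B.card (Fintype.card U)
      (Fintype.card E) N m F r

/-- ENU.  The machine of a seed with given accesses and the randomised machine.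
Proof.  Compare Pool/Agent/TGM/ENT.lean (`rans_xin`). (1) by definition. (2) Induction on `t`: if
`ρ t = M.ev ac ω (Gr z) t` then the checks succeed and the step is that of the machine. (3) Induction on `T`: a
failed check is never repaired (`none` stays `none`), so by induction and (2) the configuration at time `T` is
the real one of `z`, and `ρ` agrees with the events of `z` and of `z'` before `T`; so the main memories of the
runs on `Gr z` and `Gr z'` agree at time `T` (lemma: the contents after a step are those before, changed by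
`ev`). If the machine has answered for `z` then `ρ T = none`. Otherwise the register of `ρ T` is the accessed
one (first check), its old content is right because `ρ T = M.ev .. (Gr z') T` and the memories agree, and the
new content is right (second check). -/
def S_ENU : Prop := ∀ (n : ℕ) (Q Γ L D A X Ω K U : Type) [Zero L] [Fintype U]
  (M : Machine n Q Γ L D A X Ω) (ac : D → L → L) (ω : Ω) (Gr : (K → Perm U) → SimpleGraph (Fin n))
  (tq : Query n → Option (K × Bool × U)), QEnc Gr tq →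
  (∀ ρ t v a, (ktm M ω Gr tq ρ).rd t v a = ∅ ∨ ∃ k, (ktm M ω Gr tq ρ).rd t v a = row k) ∧
  (∀ z ρ T, (∀ t < T, ρ t = M.ev ac ω (Gr z) t) → ∀ t ≤ T, (ktm M ω Gr tq ρ).conf ac (xin z) t =
    ⟨some (M.run ac ω (Gr z) t).v, (M.run ac ω (Gr z) t).p, (M.run ac ω (Gr z) t).c⟩) ∧
  ∀ z z' ρ T, (∀ t < T, ρ t = M.ev ac ω (Gr z') t) →
    ((ktm M ω Gr tq ρ).conf ac (xin z) T).v ≠ none → ∀ t < T, ρ t = M.ev ac ω (Gr z) t

/-- the probability of the answer `no triangle` at time `N` with at most `m` changes of the room and at most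
`F` accesses to the main memory, for a random shift of the rooms -/
noncomputable def prK {n d : ℕ} {Q Γ A X Ω : Type} [MeasurableSpace Ω]
    (M : Machine n Q Γ (Cell d) (Dir d) A X Ω) (μ : Measure Ω) (N m F Z : ℕ) (hZ : 0 < Z)
    (G : SimpleGraph (Fin n)) : ℝ :=
  (∑ o ∈ range Z, μ.real {ω | M.out act ω G N = some false ∧
    M.chs act (rmap d Z hZ o) ω G N ≤ m ∧ M.acs act ω G N ≤ F}) / Z

/-- RNU (uses `RMS.S_SHF`).  Probabilities.
Proof.  Compare Pool/Agent/TGM/RNT.lean. New: the sum over `t < N` of the probabilities of the accesses is the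
expected number of the accesses; it is at most `T / φ ≤ N / (20 φ) ≤ (F + 1) / 20`, so the probability of more
than `F` accesses is at most `1 / 20`; in total `prK ≥ 2 / 3 - 3 / 20`. -/
def S_RNU : Prop := ∀ (n d : ℕ) (Q Γ A X Ω : Type) [Fintype Q] [MeasurableSpace Ω]
  (μ : Measure Ω) [IsProbabilityMeasure μ] (M : Machine n Q Γ (Cell d) (Dir d) A X Ω)
  (G : SimpleGraph (Fin n)) (φ T : ℝ) (N m F Z : ℕ) (hZ : 0 < Z), 0 < φ → 0 < N → 20 * T ≤ N →
  20 * N ≤ (m + 1) * Z → (N : ℝ) ≤ ((F : ℝ) + 1) * φ →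
  (∀ t q, MeasurableSet {ω | (M.run act ω G t).v = q}) →
  (∀ t p, MeasurableSet {ω | (M.run act ω G t).p = p}) →
  (∀ t, MeasurableSet {ω | M.Access act ω G t}) →
  2 / 3 ≤ μ.real {ω | ∃ t b, M.out act ω G t = some b ∧ (b = true ↔ ¬ G.CliqueFree 3)} →
  (∀ k : ℕ, ∑ t ∈ range k, (μ.real {ω | M.out act ω G t = none} +
    φ * μ.real {ω | M.Access act ω G t}) ≤ T) →
  (∀ o, MeasurableSet {ω | M.out act ω G N = some false ∧
    M.chs act (rmap d Z hZ o) ω G N ≤ m ∧ M.acs act ω G N ≤ F}) ∧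
  (G.CliqueFree 3 → 1 / 2 ≤ prK M μ N m F Z hZ G) ∧
  (¬ G.CliqueFree 3 → prK M μ N m F Z hZ G ≤ 1 / 3)

/-- TNV.  The numbers.
Proof.  Compare Pool/Agent/TGM/TNU.lean (same `Z`, `m`; `v + 1` instead of `v` in two places). `F = ⌊N / φ⌋₊`, so
`N ≤ (F + 1) φ`, `F + 1 ≤ N / φ + 1`. New term: `(F + 1) * log ((N + 1) k + 1) ≤ (N / φ + 1) * ((3 κ + 3) log s)`.
The terms with `N` together are at most `N / min φ (s ^ (ε / (8 d))) * ((3 κ + 6) log s)`. -/
def S_TNV : Prop := ∀ (d κ : ℕ) (ε : ℝ), 1 ≤ d → 0 < ε → ε < 1 → ∃ s1 : ℕ, ∀ s ≥ s1,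
  ∃ Z : ℕ, 0 < Z ∧ ∀ (v γ u k N r : ℕ) (φ : ℝ), 1 ≤ v → 1 ≤ γ →
  ((v : ℝ) ≤ 2 ^ ((s : ℝ) ^ ((1 - ε) / d))) → ((γ : ℝ) ≤ 2 ^ ((s : ℝ) ^ (ε / 2))) → u ≤ s →
  k ≤ s ^ (3 * κ) → N + 1 ≤ s ^ 2 → 0 < r → 1 ≤ φ →
  ∃ m F : ℕ, 20 * N ≤ (m + 1) * Z ∧ (N : ℝ) ≤ ((F : ℝ) + 1) * φ ∧
    Real.log (cntk v γ (Z ^ d) ((2 * N + 1) ^ d) u k N m F (4 * r + 1)) ≤
      ((r : ℝ) + 1) * (2 * (((3 * κ + 3 : ℕ) : ℝ) + 4) * (s : ℝ) ^ (1 - ε / 4) * Real.log s) +
        (N : ℝ) / min φ ((s : ℝ) ^ (ε / (8 * d))) * ((((3 * κ + 3 : ℕ) : ℝ) + 3) * Real.log s)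

/-- TGK (uses `RMS.S_SHF`, `RMS.S_AVD`, `S_DSU`, `S_ENU`, `S_RNU`, `S_TNV`).
Proof.  Copy Pool/Agent/TGM/TGF.lean: `R = ktm M ω Gr tq`, `ev z = M.ev act ω (Gr z)`, `E = A × X × X`
(`card E ≤ s ^ (3 κ)`); `Fam` by ENU; `B = box d N` by AVD (1) for `ktm M ω Gr tq (ev z)`, SHF (3);
`((range N).filter fun t => (ev z t).isSome).card = M.acs ..` (the definitions of `ev` and `Access`);
`Acc x = g x ∧ M.output (st x) = some false`. -/
def S_TGK : Prop := ∀ (d κ : ℕ) (ε : ℝ), 1 ≤ d → 0 < ε → ε < 1 → ∃ s1 : ℕ, ∀ s ≥ s1,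
  ∀ (φ : ℝ) (n : ℕ) (δ : Fin n → ℕ) (Q Γ A X Ω : Type) [Fintype Q] [Fintype Γ] [Fintype A]
    [Fintype X] [MeasurableSpace Ω] (μ : Measure Ω) [IsProbabilityMeasure μ]
    (M : Machine n Q Γ (Cell d) (Dir d) A X Ω) (T : ℝ), 1 ≤ φ →
    ((Fintype.card Q : ℝ) ≤ 2 ^ ((s : ℝ) ^ ((1 - ε) / d))) →
    ((Fintype.card Γ : ℝ) ≤ 2 ^ ((s : ℝ) ^ (ε / 2))) →
    Fintype.card A ≤ s ^ κ → Fintype.card X ≤ s ^ κ →
    M.DetectsTriangles act μ δ → M.ExpectedCostLE act μ δ φ T →
    GFast (3 * κ + 3) s (min φ ((s : ℝ) ^ (ε / (8 * d)))) ((s : ℝ) ^ (1 - ε / 4)) n δ T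

end Pool.Agent.TGK
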