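import Pool.Agent.TGK.St1
import Pool.Agent.TGM.St2

/-!
# Project TGK: statements, part 2 (the main theorem)
-/

set_option autoImplicit false

open Finset Equiv MeasureTheory
open scoped Classical

namespace Pool.Agent.TGK

open Pool.Agent.RMS (Cell Dir act)
open Pool.Agent.TGM (GFast S_ABM)

/-- TAQ (uses `TGM.S_ABM`, `S_TGK`).  MAIN THEOREM.
Proof.  Compare Pool/Agent/TGM/TAP.lean. ABM for `3 κ + 3`, `ε / 4` and `φ' = min φ (s ^ (ε / (8 d)))`, which is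
`≥ s₀` for large `s`, `φ`. With `a = ε / (8 d) ≤ 1`, `M = min (log s) (log φ)` and
`m' = min (log s) (log φ')` we have `a M ≤ m' ≤ M` and `0 < log m' ≤ log M`, so `m' / log m' ≥ a (M / log M)`.
`c = c1 a`. -/
def S_TAQ : Prop := ∀ (d κ : ℕ) (ε : ℝ), 1 ≤ d → 0 < ε → ε < 1 → ∃ c : ℝ, 0 < c ∧ ∃ s₀ : ℕ,
  ∀ (s : ℕ) (φ : ℝ), s₀ ≤ s → (s₀ : ℝ) ≤ φ → ∃ (n : ℕ) (δ : Fin n → ℕ), 2 * n + ∑ v, δ v = 2 * s ∧
    ∀ (Q Γ A X Ω : Type) [Fintype Q] [Fintype Γ] [Fintype A] [Fintype X] [MeasurableSpace Ω]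
      (μ : Measure Ω) [IsProbabilityMeasure μ] (M : Machine n Q Γ (Cell d) (Dir d) A X Ω) (T : ℝ),
      ((Fintype.card Q : ℝ) ≤ 2 ^ ((s : ℝ) ^ ((1 - ε) / d))) →
      ((Fintype.card Γ : ℝ) ≤ 2 ^ ((s : ℝ) ^ (ε / 2))) →
      Fintype.card A ≤ s ^ κ → Fintype.card X ≤ s ^ κ →
      M.DetectsTriangles act μ δ → M.ExpectedCostLE act μ δ φ T →
      c * s * (min (Real.log s) (Real.log φ) / Real.log (min (Real.log s) (Real.log φ))) ≤ T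

end Pool.Agent.TGK
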